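import Pool.Agent.H17.CU.Stab

/-!
# Affine schemes over `k` (helper17)
-/

namespace Pool.Agent.H17.CU

open CategoryTheory Limits AlgebraicGeometry

variable {k : Type} [Field k]

theorem FT.aff (R : Type) [CommRing R] [Algebra k R] [h : Algebra.FiniteType k R] :
    FT (aff k R) := by
  refine ⟨?_, ?_, ?_⟩
  · show LocallyOfFiniteType (Spec.map (CommRingCat.ofHom (algebraMap k R)))
    rw [HasRingHomProperty.Spec_iff (P := @LocallyOfFiniteType)]
    exact (RingHom.finiteType_algebraMap).mpr h
  · show QuasiCompact (Spec.map (CommRingCat.ofHom (algebraMap k R)))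
    infer_instance
  · show IsSeparated (Spec.map (CommRingCat.ofHom (algebraMap k R)))
    infer_instance

theorem Sm.aff (R : Type) [CommRing R] [Algebra k R] [h : Algebra.Smooth k R] :
    Sm (aff k R) := by
  have : Algebra.FiniteType k R := inferInstance
  refine ⟨FT.aff R, ?_⟩
  show Smooth (Spec.map (CommRingCat.ofHom (algebraMap k R)))
  rw [HasRingHomProperty.Spec_iff (P := @Smooth)]
  exact RingHom.smooth_algebraMap.mpr h

/-- An open subscheme of an affine variety. -/
theorem FT.opens (R : Type) [CommRing R] [Algebra k R] [h : Algebra.FiniteType k R]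
    (U : (Spec (.of R)).Opens) : FT (Over.mk (U.ι ≫ (CU.aff k R).hom) : Over (Spec (.of k))) := by
  obtain ⟨h1, h2, h3⟩ := FT.aff (k := k) R
  have : IsNoetherianRing R := Algebra.FiniteType.isNoetherianRing k R
  have : IsLocallyNoetherian (Spec (.of R)) := by infer_instance
  have h1' : LocallyOfFiniteType (Spec.map (CommRingCat.ofHom (algebraMap k R))) := h1
  refine ⟨?_, ?_, ?_⟩
  · show LocallyOfFiniteType (U.ι ≫ Spec.map (CommRingCat.ofHom (algebraMap k R)))
    infer_instance
  · show QuasiCompact (U.ι ≫ Spec.map (CommRingCat.ofHom (algebraMap k R)))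
    have : QuasiCompact U.ι := by infer_instance
    infer_instance
  · show IsSeparated (U.ι ≫ Spec.map (CommRingCat.ofHom (algebraMap k R)))
    infer_instance

theorem isClosedImmersion_affMap {R S : Type} [CommRing R] [CommRing S] [Algebra k R] [Algebra k S]
    (φ : R →ₐ[k] S) (hφ : Function.Surjective φ) : IsClosedImmersion (affMap φ).left :=
  IsClosedImmersion.spec_of_surjective _ hφ

theorem range_affMap {R S : Type} [CommRing R] [CommRing S] [Algebra k R] [Algebra k S]
    (φ : R →ₐ[k] S) (hφ : Function.Surjective φ) :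
    Set.range (affMap φ).left = PrimeSpectrum.zeroLocus (RingHom.ker φ : Set R) :=
  range_comap_of_surjective _ _ hφ

theorem affMap_comp {R S P : Type} [CommRing R] [CommRing S] [CommRing P] [Algebra k R]
    [Algebra k S] [Algebra k P] (φ : R →ₐ[k] S) (ψ : S →ₐ[k] P) :
    affMap (ψ.comp φ) = affMap ψ ≫ affMap φ := by
  ext1
  show Spec.map _ = Spec.map _ ≫ Spec.map _
  rw [← Spec.map_comp]
  rfl

/-- Injectivity of the push-forward for affine schemes. -/
theorem push_affMap_injective (T : ChowTheory k) {B Q R' : Type} [CommRing B] [CommRing Q]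
    [CommRing R'] [Algebra k B] [Algebra k Q] [Algebra k R'] [Algebra.FiniteType k B]
    [Algebra.FiniteType k Q] [Algebra.FiniteType k R'] (b : B →ₐ[k] Q) (ρ : Q →ₐ[k] R')
    (hρ : Function.Surjective ρ) (hb : b.toRingHom.Flat) (U : (Spec (.of Q)).Opens)
    (hU : (U : Set (Spec (.of Q))) = (PrimeSpectrum.zeroLocus (RingHom.ker ρ : Set Q))ᶜ)
    (hA : AffineFibres (U.ι ≫ Spec.map (CommRingCat.ofHom b.toRingHom))) :
    Function.Injective (T.push (affMap ρ)) := by
  let j : Over.mk (U.ι ≫ (aff k Q).hom) ⟶ aff k Q := Over.homMk U.ι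
  refine push_injective T (affMap ρ) j (affMap b) (FT.aff R') (FT.aff Q) (FT.opens Q U) (FT.aff B)
    (isClosedImmersion_affMap ρ hρ) ?_ ?_ ?_ ?_
  · show IsOpenImmersion U.ι
    infer_instance
  · rw [range_affMap ρ hρ]
    show Set.range U.ι = _
    rw [Scheme.Opens.range_ι]
    exact hU
  · show Flat (Spec.map (CommRingCat.ofHom b.toRingHom))
    rw [Flat.SpecMap_iff]
    exact hb
  · exact hA

end Pool.Agent.H17.CU
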