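import Pool.Agent.H17.CU.BC

/-!
# The complement of the locus has affine spaces as fibres over `Spec B` (helper17)
-/

namespace Pool.Agent.H17.CU

open MvPolynomial CategoryTheory Limits AlgebraicGeometry

namespace QR

variable {B : Type} [CommRing B] {m : ℕ} (f : Fin m → B)

/-- The open complement of the locus `(f, s - 1)` in `Spec (QR B f)`. -/
noncomputable def opn : (Spec (.of (QR B f))).Opens :=
  ⟨(PrimeSpectrum.zeroLocus (locus f))ᶜ, (PrimeSpectrum.isClosed_zeroLocus _).isOpen_compl⟩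

theorem flat_str : Flat (Spec.map (CommRingCat.ofHom (algebraMap B (QR B f)))) := by
  rw [Flat.SpecMap_iff]
  have : Module.Flat B (QR B f) := inferInstance
  exact (RingHom.flat_algebraMap_iff (R := B) (S := QR B f)).mpr this

theorem map_locus {C : Type} [CommRing C] (φ : B →+* C) :
    map φ f '' locus f = locus (fun i => φ (f i)) := by
  rw [locus, locus, Set.image_insert_eq, ← Set.range_comp]
  congr 1
  · simp
  · congr 1
    ext i
    simp

theorem affineFibres : AffineFibres ((opn f).ι ≫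
    Spec.map (CommRingCat.ofHom (algebraMap B (QR B f)))) := by
  have := flat_str f
  refine ⟨inferInstance, ?_⟩
  intro F _ y
  obtain ⟨φ', rfl⟩ := Spec.map_surjective y
  let φ : B →+* F := φ'.hom
  obtain ⟨ψ, hψs, ⟨e, he, hk⟩, hz⟩ := fibre (fun i => φ (f i))
  refine ⟨m, ?_⟩
  -- the open immersion of the affine space
  let a : Spec (.of (MvPolynomial (Fin m) F)) ⟶ Spec (.of (QR F fun i => φ (f i))) :=
    Spec.map (CommRingCat.ofHom ψ.toRingHom)
  have ha : IsOpenImmersion a := by
    rw [isOpenImmersion_SpecMap_iff_of_surjective _ hψs]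
    exact ⟨e, he, hk⟩
  have hrange : Set.range a = (PrimeSpectrum.zeroLocus (locus fun i => φ (f i)))ᶜ := by
    rw [← hz]
    exact range_comap_of_surjective _ _ hψs
  let b : Spec (.of (QR F fun i => φ (f i))) ⟶ Spec (.of (QR B f)) :=
    Spec.map (CommRingCat.ofHom (map φ f))
  have hab : Set.range (a ≫ b) ⊆ Set.range (opn f).ι := by
    rw [Scheme.Opens.range_ι]
    rintro _ ⟨x, rfl⟩
    have hx : a x ∈ Set.range a := ⟨x, rfl⟩
    rw [hrange] at hx
    intro hx'
    apply hx
    have h2 : (a x : PrimeSpectrum (QR F fun i => φ (f i))).comap (map φ f) ∈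
      PrimeSpectrum.zeroLocus (locus f) := hx'
    rw [← map_locus]
    rw [PrimeSpectrum.mem_zeroLocus] at h2 ⊢
    rintro _ ⟨c, hc, rfl⟩
    exact h2 hc
  let g' : Spec (.of (MvPolynomial (Fin m) F)) ⟶ (opn f : Scheme) :=
    IsOpenImmersion.lift (opn f).ι (a ≫ b) hab
  have hg' : g' ≫ (opn f).ι = a ≫ b := IsOpenImmersion.lift_fac _ _ _
  have key : ∀ x : PrimeSpectrum (QR F fun i => φ (f i)),
      x.comap (map φ f) ∈ PrimeSpectrum.zeroLocus (locus f) ↔
        x ∈ PrimeSpectrum.zeroLocus (locus fun i => φ (f i)) := fun x => by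
    rw [← map_locus, PrimeSpectrum.mem_zeroLocus, PrimeSpectrum.mem_zeroLocus,
      Set.image_subset_iff]
    rfl
  have sq1 : IsPullback g' a (opn f).ι b := by
    apply IsOpenImmersion.isPullback _ _ _ _ hg'.symm
    ext x
    simp only [TopologicalSpace.Opens.map_coe, Set.mem_preimage, SetLike.mem_coe]
    have h1 : x ∈ a.opensRange ↔ x ∈ Set.range a := Iff.rfl
    rw [h1, hrange]
    have h2 : b x ∈ opn f ↔
      ¬ ((x : PrimeSpectrum (QR F fun i => φ (f i))).comap (map φ f) ∈
        PrimeSpectrum.zeroLocus (locus f)) := Iff.rfl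
    have h3 : (x ∈ (PrimeSpectrum.zeroLocus (locus fun i => φ (f i)))ᶜ) ↔
        ¬ ((x : PrimeSpectrum (QR F fun i => φ (f i))) ∈
          PrimeSpectrum.zeroLocus (locus fun i => φ (f i))) := Iff.rfl
    rw [Scheme.Opens.opensRange_ι]
    exact h2.trans ((not_congr (key x)).trans h3.symm)
  have sq2 : IsPullback b (Spec.map (CommRingCat.ofHom (algebraMap F (QR F fun i => φ (f i)))))
      (Spec.map (CommRingCat.ofHom (algebraMap B (QR B f)))) (Spec.map (CommRingCat.ofHom φ)) :=
    isPullback_SpecMap_of_isPushout _ _ _ _ (isPushout φ f).flip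
  have sq3 := sq1.paste_vert sq2
  have e1 : a ≫ Spec.map (CommRingCat.ofHom (algebraMap F (QR F fun i => φ (f i))))
      = Spec.map (CommRingCat.ofHom (C : F →+* MvPolynomial (Fin m) F)) := by
    rw [← Spec.map_comp, ← CommRingCat.ofHom_comp]
    congr 2
    exact ψ.comp_algebraMap
  rw [e1] at sq3
  refine ⟨(AffineSpace.SpecIso (Fin m) (.of F)).hom ≫ g', ?_⟩
  have e2 : 𝔸(Fin m; Spec (.of F)) ↘ Spec (.of F)
      = (AffineSpace.SpecIso (Fin m) (.of F)).hom ≫
        Spec.map (CommRingCat.ofHom (C : F →+* MvPolynomial (Fin m) F)) := by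
    rw [← AffineSpace.SpecIso_inv_over (n := Fin m) (.of F), Iso.hom_inv_id_assoc]
  rw [e2]
  exact IsPullback.of_iso sq3 (AffineSpace.SpecIso (Fin m) (.of F)).symm (Iso.refl _) (Iso.refl _)
    (Iso.refl _) (by simp) (by simp) (by simp) (by simp [φ])

end QR

end Pool.Agent.H17.CU
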