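import Pool.Agent.H17.CU.Fib

/-!
# Base change of the ring `QR B f` (helper17)
-/

namespace Pool.Agent.H17.CU

open MvPolynomial CategoryTheory Limits AlgebraicGeometry

namespace QR

variable {B C : Type} [CommRing B] [CommRing C] (φ : B →+* C) {m : ℕ} (f : Fin m → B)

/-- The ring homomorphism `QR B f → D` with given values. -/
noncomputable def descHom {D : Type} [CommRing D] (α : B →+* D) (v : Option (Fin m) → D)
    (h : v none ^ 2 - v none + ∑ i, α (f i) * v (some i) = 0) : QR B f →+* D :=
  letI : Algebra B D := α.toAlgebra
  (lift f v h : QR B f →ₐ[B] D).toRingHom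

@[simp]
theorem descHom_var {D : Type} [CommRing D] (α : B →+* D) (v : Option (Fin m) → D)
    (h : v none ^ 2 - v none + ∑ i, α (f i) * v (some i) = 0) (i) :
    descHom f α v h (var f i) = v i := by
  let : Algebra B D := α.toAlgebra
  exact lift_var f v h i

@[simp]
theorem descHom_algebraMap {D : Type} [CommRing D] (α : B →+* D) (v : Option (Fin m) → D)
    (h : v none ^ 2 - v none + ∑ i, α (f i) * v (some i) = 0) (b : B) :
    descHom f α v h (algebraMap B _ b) = α b := by
  let : Algebra B D := α.toAlgebra
  exact (lift f v h : QR B f →ₐ[B] D).commutes b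

theorem ringHom_ext {D : Type} [CommRing D] {α β : QR B f →+* D}
    (h0 : ∀ b, α (algebraMap B _ b) = β (algebraMap B _ b))
    (h : ∀ i, α (var f i) = β (var f i)) : α = β := by
  let : Algebra B D := (α.comp (algebraMap B _)).toAlgebra
  let α' : QR B f →ₐ[B] D := { α with commutes' := fun b => rfl }
  let β' : QR B f →ₐ[B] D := { β with commutes' := fun b => (h0 b).symm }
  have : α' = β' := hom_ext f (fun i => h i)
  exact RingHom.ext fun x => congrArg (fun γ : QR B f →ₐ[B] D => γ x) this

/-- Base change of the ring `QR B f` along `φ : B → C`. -/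
noncomputable def map : QR B f →+* QR C (fun i => φ (f i)) :=
  descHom f ((algebraMap C _).comp φ) (var fun i => φ (f i)) (rel fun i => φ (f i))

@[simp]
theorem map_var (i : Option (Fin m)) : map φ f (var f i) = var (fun i => φ (f i)) i :=
  descHom_var f _ _ _ i

@[simp]
theorem map_algebraMap (b : B) : map φ f (algebraMap B _ b) = algebraMap C _ (φ b) :=
  descHom_algebraMap f _ _ _ b

theorem isPushout : IsPushout (CommRingCat.ofHom φ) (CommRingCat.ofHom (algebraMap B (QR B f)))
    (CommRingCat.ofHom (algebraMap C (QR C fun i => φ (f i)))) (CommRingCat.ofHom (map φ f)) where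
  w := by
    ext b
    simp
  isColimit' := by
    have hrel : ∀ s : PushoutCocone (CommRingCat.ofHom φ)
        (CommRingCat.ofHom (algebraMap B (QR B f))),
        s.inr.hom (var f none) ^ 2 - s.inr.hom (var f none)
          + ∑ i, s.inl.hom (φ (f i)) * s.inr.hom (var f (some i)) = 0 := fun s => by
      have h := congrArg s.inr.hom (rel f)
      rw [map_add, map_sub, map_pow, map_sum, map_zero] at h
      rw [← h]
      congr 1
      refine Finset.sum_congr rfl fun i _ => ?_
      rw [map_mul]
      congr 1
      have hc := congrArg (fun γ => γ.hom (f i)) s.condition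
      exact hc
    refine ⟨PushoutCocone.IsColimit.mk _ (fun s => CommRingCat.ofHom
      (descHom (fun i => φ (f i)) s.inl.hom (fun i => s.inr.hom (var f i)) (hrel s)))
      (fun s => ?_) (fun s => ?_) (fun s m h1 h2 => ?_)⟩
    · ext c
      exact descHom_algebraMap (fun i => φ (f i)) s.inl.hom _ (hrel s) c
    · apply CommRingCat.hom_ext
      apply ringHom_ext
      · intro b
        simp only [CommRingCat.hom_comp, CommRingCat.hom_ofHom, RingHom.comp_apply,
          map_algebraMap]
        have hc := congrArg (fun γ => γ.hom b) s.condition
        refine Eq.trans ?_ hc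
        exact descHom_algebraMap (fun i => φ (f i)) s.inl.hom _ (hrel s) (φ b)
      · intro i
        simp only [CommRingCat.hom_comp, CommRingCat.hom_ofHom, RingHom.comp_apply, map_var]
        exact descHom_var (fun i => φ (f i)) s.inl.hom (fun i => s.inr.hom (var f i)) (hrel s) i
    · apply CommRingCat.hom_ext
      apply ringHom_ext
      · intro c
        have := congrArg (fun γ => γ.hom c) h1
        refine Eq.trans this ?_
        exact (descHom_algebraMap (fun i => φ (f i)) s.inl.hom _ (hrel s) c).symm
      · intro i
        have := congrArg (fun γ => γ.hom (var f i)) h2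
        simp only [CommRingCat.hom_comp, CommRingCat.hom_ofHom, RingHom.comp_apply, map_var] at this
        refine Eq.trans this ?_
        exact (descHom_var (fun i => φ (f i)) s.inl.hom (fun i => s.inr.hom (var f i))
          (hrel s) i).symm

end QR

end Pool.Agent.H17.CU
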