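import Pool.Agent.H17.CU.Pres

/-!
# Finitely generated algebras over an algebraic extension of `ℚ` (helper17)

Every finitely generated `k`-algebra `R`, `k` algebraic over `ℚ`, is a quotient of an algebra
presented by elementary equations, by an ideal generated by an idempotent.
-/

namespace Pool.Agent.H17.CU

open MvPolynomial

/-- An integral polynomial with a given algebraic number as a simple root. -/
theorem exists_simple_root {k : Type} [Field k] [CharZero k] [Algebra.IsAlgebraic ℚ k] (c : k) :
    ∃ P : Polynomial ℤ, Polynomial.aeval c P = 0 ∧ Polynomial.aeval c P.derivative ≠ 0 := by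
  have hint : IsIntegral ℚ c := Algebra.IsIntegral.isIntegral c
  obtain ⟨b, hb, hb2⟩ := IsLocalization.integerNormalization_spec (nonZeroDivisors ℤ)
    (minpoly ℚ c)
  have hb0 : (b : ℚ) ≠ 0 := by
    have := nonZeroDivisors.ne_zero hb
    exact_mod_cast this
  set P := IsLocalization.integerNormalization (nonZeroDivisors ℤ) (minpoly ℚ c) with hP
  have hmap : P.map (algebraMap ℤ ℚ) = (b : Polynomial ℚ) * minpoly ℚ c := by
    rw [← zsmul_eq_mul]
    exact hb2
  refine ⟨P, ?_, ?_⟩
  · have h1 : Polynomial.aeval c P = Polynomial.aeval c (P.map (algebraMap ℤ ℚ)) := by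
      rw [Polynomial.aeval_map_algebraMap]
    rw [h1, hmap, map_mul, minpoly.aeval, mul_zero]
  · have h1 : Polynomial.aeval c P.derivative
        = Polynomial.aeval c (P.map (algebraMap ℤ ℚ)).derivative := by
      rw [Polynomial.derivative_map, Polynomial.aeval_map_algebraMap]
    rw [h1, hmap, Polynomial.derivative_intCast_mul, map_mul, map_intCast]
    have hsep : (minpoly ℚ c).Separable := (minpoly.irreducible hint).separable
    have h2 : Polynomial.aeval c (minpoly ℚ c).derivative ≠ 0 :=
      hsep.aeval_derivative_ne_zero (minpoly.aeval ℚ c)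
    refine mul_ne_zero ?_ h2
    exact_mod_cast nonZeroDivisors.ne_zero hb

/-- In an algebra, if `y` satisfies a polynomial with simple root `c`, then `y - c` is divisible by
its square. -/
theorem dvd_sq {k : Type} [Field k] {D : Type} [CommRing D] [Algebra k D] (c : k)
    (P : Polynomial ℤ) (h0 : Polynomial.aeval c P = 0) (h1 : Polynomial.aeval c P.derivative ≠ 0)
    (y : D) (hy : Polynomial.aeval y P = 0) :
    ∃ u : D, y - algebraMap k D c = u * (y - algebraMap k D c) ^ 2 := by
  set a := y - algebraMap k D c with ha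
  obtain ⟨q, hq⟩ := Polynomial.binomExpansion (P.map (algebraMap ℤ D)) (algebraMap k D c) a
  have e1 : algebraMap k D c + a = y := by rw [ha]; ring
  rw [e1, Polynomial.derivative_map, Polynomial.eval_map_algebraMap, Polynomial.eval_map_algebraMap,
    Polynomial.eval_map_algebraMap, hy] at hq
  have e23 : ∀ P : Polynomial ℤ, Polynomial.aeval (algebraMap k D c) P
      = algebraMap k D (Polynomial.aeval c P) := by
    intro P
    rw [Polynomial.aeval_def, Polynomial.aeval_def, Polynomial.hom_eval₂]
    congr 1
    ext x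
    simp
  have e2 : Polynomial.aeval (algebraMap k D c) P = 0 := by
    rw [e23, h0, map_zero]
  have e3 := e23 P.derivative
  rw [e2, e3] at hq
  refine ⟨- algebraMap k D (Polynomial.aeval c P.derivative)⁻¹ * q, ?_⟩
  have e4 : algebraMap k D (Polynomial.aeval c P.derivative)⁻¹ *
      algebraMap k D (Polynomial.aeval c P.derivative) = 1 := by
    rw [← map_mul, inv_mul_cancel₀ h1, map_one]
  linear_combination (algebraMap k D (Polynomial.aeval c P.derivative)⁻¹) * (-hq) - a * e4

/-- Every finitely generated algebra over an algebraic extension `k` of `ℚ` is the quotient of a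
`k`-algebra presented by integral polynomials by an ideal generated by an idempotent. -/
theorem exists_integral {k : Type} [Field k] [CharZero k] [Algebra.IsAlgebraic ℚ k] (R : Type)
    [CommRing R] [Algebra k R] [Algebra.FiniteType k R] :
    ∃ (τ : Type) (_ : Finite τ) (S : List (MvPolynomial τ ℤ)) (π : PS k S →ₐ[k] R),
      Function.Surjective π ∧ ∃ e, IsIdempotentElem e ∧ RingHom.ker π = Ideal.span {e} := by
  classical
  obtain ⟨n, f, hf⟩ := Algebra.FiniteType.iff_quotient_mvPolynomial''.mp
    (inferInstance : Algebra.FiniteType k R)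
  obtain ⟨G, hG⟩ : (RingHom.ker f).FG := IsNoetherian.noetherian _
  -- the coefficients
  let J : Type := Σ g : G, g.1.support
  have : Finite J := inferInstance
  let c : J → k := fun j => j.1.1.coeff j.2.1
  choose P hP0 hP1 using fun x : k => exists_simple_root x
  -- the polynomials
  let Gp : G → MvPolynomial (Fin n ⊕ J) ℤ := fun g =>
    ∑ μ : g.1.support, X (Sum.inr ⟨g, μ⟩) * ∏ i, X (Sum.inl i) ^ (μ.1 i)
  let Hp : J → MvPolynomial (Fin n ⊕ J) ℤ := fun j => Polynomial.aeval (X (Sum.inr j)) (P (c j))
  have : Fintype J := Fintype.ofFinite J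
  let S : List (MvPolynomial (Fin n ⊕ J) ℤ) :=
    (Finset.univ.toList.map Gp) ++ (Finset.univ.toList.map Hp)
  have hSiff : ∀ (D : Type) [CommRing D] (z : Fin n ⊕ J → D), (∀ p ∈ S, aeval z p = 0) ↔
      (∀ g : G, ∑ μ : g.1.support, z (Sum.inr ⟨g, μ⟩) * ∏ i, z (Sum.inl i) ^ (μ.1 i) = 0) ∧
      ∀ j, Polynomial.aeval (z (Sum.inr j)) (P (c j)) = 0 := by
    intro D _ z
    simp only [S, List.mem_append, List.mem_map, Finset.mem_toList, Finset.mem_univ, true_and]
    have e1 : ∀ g, aeval z (Gp g)
        = ∑ μ : g.1.support, z (Sum.inr ⟨g, μ⟩) * ∏ i, z (Sum.inl i) ^ (μ.1 i) := by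
      intro g
      simp [Gp]
    have e2 : ∀ j, aeval z (Hp j) = Polynomial.aeval (z (Sum.inr j)) (P (c j)) := by
      intro j
      simp only [Hp]
      rw [← Polynomial.aeval_algHom_apply, aeval_X]
    constructor
    · intro h
      refine ⟨fun g => ?_, fun j => ?_⟩
      · rw [← e1]; exact h _ (Or.inl ⟨g, rfl⟩)
      · rw [← e2]; exact h _ (Or.inr ⟨j, rfl⟩)
    · rintro ⟨h1, h2⟩ _ (⟨g, rfl⟩ | ⟨j, rfl⟩)
      · rw [e1]; exact h1 g
      · rw [e2]; exact h2 j
  -- evaluation of the generators of the kernel
  have hev : ∀ (D : Type) [CommRing D] [Algebra k D] (t : Fin n → D) (g : G),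
      aeval t g.1 = ∑ μ : g.1.support, algebraMap k D (c ⟨g, μ⟩) * ∏ i, t i ^ (μ.1 i) := by
    intro D _ _ t g
    rw [aeval_def, eval₂_eq']
    exact (Finset.sum_coe_sort g.1.support
      (fun μ => algebraMap k D (g.1.coeff μ) * ∏ i, t i ^ (μ i))).symm
  have hG0 : ∀ g : G, f g.1 = 0 := fun g => by
    have : g.1 ∈ RingHom.ker f := by
      rw [← hG]; exact Ideal.subset_span g.2
    exact this
  have hfa : f = aeval (fun i => f (X i)) := by
    apply MvPolynomial.algHom_ext
    intro i
    simp
  -- the homomorphism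
  let z0 : Fin n ⊕ J → R := Sum.elim (fun i => f (X i)) (fun j => algebraMap k R (c j))
  have hz0 : ∀ p ∈ S, aeval z0 p = 0 := by
    rw [hSiff]
    refine ⟨fun g => ?_, fun j => ?_⟩
    · have h1 := hev R (fun i => f (X i)) g
      rw [← hfa, hG0] at h1
      exact h1.symm
    · show Polynomial.aeval (algebraMap k R (c j)) (P (c j)) = 0
      have h2 : Polynomial.aeval (algebraMap k R (c j)) (P (c j))
          = algebraMap k R (Polynomial.aeval (c j) (P (c j))) := by
        rw [Polynomial.aeval_def, Polynomial.aeval_def, Polynomial.hom_eval₂]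
        congr 1
        ext x
        simp
      rw [h2, hP0, map_zero]
  let π : PS k S →ₐ[k] R := PS.lift S z0 hz0
  have hπt : ∀ i, π (PS.gen k S (Sum.inl i)) = f (X i) := fun i => PS.lift_gen S z0 hz0 (Sum.inl i)
  have hπy : ∀ j, π (PS.gen k S (Sum.inr j)) = algebraMap k R (c j) :=
    fun j => PS.lift_gen S z0 hz0 (Sum.inr j)
  refine ⟨Fin n ⊕ J, inferInstance, S, π, ?_, ?_⟩
  · intro r
    obtain ⟨q, rfl⟩ := hf r
    refine ⟨aeval (fun i => PS.gen k S (Sum.inl i)) q, ?_⟩
    have h : π.comp (aeval (fun i => PS.gen k S (Sum.inl i))) = f := by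
      apply MvPolynomial.algHom_ext
      intro i
      simp [hπt]
    exact congrArg (fun γ : MvPolynomial (Fin n) k →ₐ[k] R => γ q) h
  · -- the kernel
    let a : J → PS k S := fun j => PS.gen k S (Sum.inr j) - algebraMap k _ (c j)
    let I : Ideal (PS k S) := Ideal.span (Set.range a)
    have hsol := (hSiff (PS k S) (PS.gen k S)).mp (PS.sol_gen k S)
    have hker : RingHom.ker π = I := by
      apply le_antisymm
      · intro x hx
        have hx0 : π x = 0 := hx
        -- the homomorphism `R → PS / I`
        let mkI : PS k S →ₐ[k] (PS k S ⧸ I) := Ideal.Quotient.mkₐ k I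
        let q : MvPolynomial (Fin n) k →ₐ[k] (PS k S ⧸ I) :=
          aeval (fun i => mkI (PS.gen k S (Sum.inl i)))
        have hyc : ∀ j : J, mkI (PS.gen k S (Sum.inr j))
            = mkI (algebraMap k (PS k S) (c j)) := by
          intro j
          have h1 : mkI (a j) = 0 :=
            Ideal.Quotient.eq_zero_iff_mem.mpr (Ideal.subset_span ⟨j, rfl⟩)
          rw [map_sub, sub_eq_zero] at h1
          exact h1
        have hq0 : ∀ g ∈ RingHom.ker f, q g = 0 := by
          intro g hg
          have hle : RingHom.ker f ≤ RingHom.ker q := by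
            rw [← hG, Ideal.span_le]
            intro g hg
            show q g = 0
            have h1 := hev (PS k S ⧸ I) (fun i => mkI
              (PS.gen k S (Sum.inl i))) ⟨g, hg⟩
            have h2 := congrArg (mkI) (hsol.1 ⟨g, hg⟩)
            rw [map_sum, map_zero] at h2
            refine h1.trans (Eq.trans ?_ h2)
            refine Finset.sum_congr rfl fun μ _ => ?_
            rw [map_mul, map_prod, hyc, AlgHom.commutes]
            simp only [map_pow]
          exact hle hg
        let r : R →ₐ[k] (PS k S ⧸ I) :=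
          (Ideal.Quotient.liftₐ (RingHom.ker f) q hq0).comp
            (Ideal.quotientKerAlgEquivOfSurjective hf).symm.toAlgHom
        have hr : ∀ y, r (f y) = q y := by
          intro y
          have h1 : (Ideal.quotientKerAlgEquivOfSurjective hf).symm (f y)
              = Ideal.Quotient.mk (RingHom.ker f) y := by
            rw [AlgEquiv.symm_apply_eq]
            rfl
          show (Ideal.Quotient.liftₐ (RingHom.ker f) q hq0)
            ((Ideal.quotientKerAlgEquivOfSurjective hf).symm (f y)) = q y
          rw [h1]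
          rfl
        have hcomp : r.comp π = mkI := by
          refine Ideal.Quotient.algHom_ext _ (MvPolynomial.algHom_ext ?_)
          intro i
          show r (π (PS.gen k S i)) = mkI (PS.gen k S i)
          cases i with
          | inl i => rw [hπt, hr]; simp [q]
          | inr j => rw [hπy, AlgHom.commutes, hyc, AlgHom.commutes]
        have h3 : mkI x = 0 := by
          rw [← hcomp, AlgHom.comp_apply, hx0, map_zero]
        exact Ideal.Quotient.eq_zero_iff_mem.mp h3
      · rw [Ideal.span_le]
        rintro _ ⟨j, rfl⟩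
        rw [SetLike.mem_coe, RingHom.mem_ker]
        show π (PS.gen k S (Sum.inr j) - algebraMap k _ (c j)) = 0
        rw [map_sub, hπy, AlgHom.commutes, sub_self]
    rw [hker]
    refine (Ideal.isIdempotentElem_iff_of_fg I ⟨Finset.univ.image a, by simp [I]⟩).mp ?_
    show I * I = I
    refine le_antisymm Ideal.mul_le_left ?_
    rw [Ideal.span_le]
    rintro _ ⟨j, rfl⟩
    obtain ⟨u, hu⟩ := dvd_sq (c j) (P (c j)) (hP0 _) (hP1 _) (PS.gen k S (Sum.inr j)) (hsol.2 j)
    have hu' : a j = u * a j ^ 2 := hu
    rw [SetLike.mem_coe, hu', pow_two]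
    exact Ideal.mul_mem_left _ _ (Ideal.mul_mem_mul (Ideal.subset_span ⟨j, rfl⟩)
      (Ideal.subset_span ⟨j, rfl⟩))

/-- Every finitely generated algebra over an algebraic extension `k` of `ℚ` is the quotient of a
`k`-algebra presented by elementary equations by an ideal generated by an idempotent. -/
theorem exists_presentation {k : Type} [Field k] [CharZero k] [Algebra.IsAlgebraic ℚ k] (R : Type)
    [CommRing R] [Algebra k R] [Algebra.FiniteType k R] :
    ∃ (n : ℕ) (E : List (Eqn (Fin n))) (π : PE k E →ₐ[k] R),
      Function.Surjective π ∧ ∃ e, IsIdempotentElem e ∧ RingHom.ker π = Ideal.span {e} := by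
  obtain ⟨τ, _, S, π, hπ, e, he, hker⟩ := exists_integral (k := k) R
  obtain ⟨n, E, ⟨φ⟩⟩ := exists_list k S
  refine ⟨n, E, π.comp φ.toAlgHom, hπ.comp φ.surjective, φ.symm e, ?_, ?_⟩
  · have := he.map φ.symm
    exact this
  · ext x
    rw [RingHom.mem_ker]
    have h1 : π.comp φ.toAlgHom x = π (φ x) := rfl
    have h2 : π (φ x) = 0 ↔ φ x ∈ Ideal.span {e} := by
      rw [← hker, RingHom.mem_ker]
    rw [h1, h2, Ideal.mem_span_singleton', Ideal.mem_span_singleton']
    constructor
    · rintro ⟨a, ha⟩
      refine ⟨φ.symm a, ?_⟩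
      rw [← map_mul, ha, AlgEquiv.symm_apply_apply]
    · rintro ⟨a, ha⟩
      refine ⟨φ a, ?_⟩
      rw [← ha, map_mul, AlgEquiv.apply_symm_apply]

end Pool.Agent.H17.CU
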