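import Pool.Agent.H17.CU.Rel
import Pool.Agent.H17.CU.Coef

/-!
# The cubic polynomial of a system of elementary equations (helper17)
-/

namespace Pool.Agent.H17.CU

open MvPolynomial

variable {n : ℕ}

theorem poly_map (R : Type) [CommRing R] {σ : Type} (e : Eqn σ) :
    MvPolynomial.map (Int.castRingHom R) (e.poly ℤ) = e.poly R := by
  cases e <;> simp [Eqn.poly]

theorem cubic_map (R : Type) [CommRing R] (E : List (Eqn (Fin n))) :
    MvPolynomial.map (Int.castRingHom R) (cubic ℤ E) = cubic R E := by
  simp only [cubic, map_add, map_sub, map_pow, map_X, map_sum, map_mul, map_rename, poly_map]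

theorem totalDegree_poly {σ : Type} (e : Eqn σ) : (e.poly ℤ).totalDegree ≤ 2 := by
  cases e with
  | mul a b c =>
    refine (totalDegree_sub _ _).trans (max_le ((totalDegree_mul _ _).trans ?_) ?_)
    · rw [totalDegree_X, totalDegree_X]
    · rw [totalDegree_X]; norm_num
  | add a b c _ =>
    refine (totalDegree_sub _ _).trans (max_le ((totalDegree_add _ _).trans (max_le ?_ ?_)) ?_)
    all_goals rw [totalDegree_X]; norm_num
  | one a =>
    refine (totalDegree_sub _ _).trans (max_le ?_ ?_)
    · rw [totalDegree_X]; norm_num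
    · rw [totalDegree_one]; norm_num

theorem totalDegree_cubic (E : List (Eqn (Fin n))) : (cubic ℤ E).totalDegree ≤ 3 := by
  refine (totalDegree_add _ _).trans (max_le ((totalDegree_sub _ _).trans (max_le ?_ ?_)) ?_)
  · refine (totalDegree_pow _ _).trans ?_
    rw [totalDegree_X]; norm_num
  · rw [totalDegree_X]; norm_num
  · refine totalDegree_finsetSum_le fun i _ => ?_
    refine (totalDegree_mul _ _).trans ?_
    rw [totalDegree_X]
    have := (totalDegree_rename_le (Sum.inr : Fin n → Option (Fin E.length) ⊕ Fin n)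
      ((E.get i).poly ℤ)).trans (totalDegree_poly _)
    omega

theorem coeff_poly {σ : Type} (e : Eqn σ) (u : σ →₀ ℕ) :
    (e.poly ℤ).coeff u = 0 ∨ (e.poly ℤ).coeff u = 1 ∨ (e.poly ℤ).coeff u = -1 := by
  classical
  cases e with
  | mul a b c =>
    have h1 : (X a * X b : MvPolynomial σ ℤ) = monomial (Finsupp.single a 1 + Finsupp.single b 1) 1
        := by simp [X, monomial_mul]
    rw [Eqn.poly, coeff_sub, h1, coeff_monomial, coeff_X]
    split_ifs <;> simp
  | add a b c hab =>
    rw [Eqn.poly, coeff_sub, coeff_add, coeff_X, coeff_X, coeff_X]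
    by_cases h1 : Finsupp.single a 1 = u
    · have h2 : Finsupp.single b 1 ≠ u := by
        rintro rfl
        exact hab (Finsupp.single_left_injective one_ne_zero h1)
      rw [if_pos h1, if_neg h2]
      split_ifs <;> simp
    · rw [if_neg h1]
      split_ifs <;> simp
  | one a =>
    rw [Eqn.poly, coeff_sub, coeff_X, coeff_one]
    split_ifs <;> simp

theorem coeff_cubic (E : List (Eqn (Fin n))) (μ : (Option (Fin E.length) ⊕ Fin n) →₀ ℕ) :
    (cubic ℤ E).coeff μ = 0 ∨ (cubic ℤ E).coeff μ = 1 ∨ (cubic ℤ E).coeff μ = -1 := by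
  classical
  have hsum : (cubic ℤ E).coeff μ = (if Finsupp.single (Sum.inl none) 2 = μ then 1 else 0)
      - (if Finsupp.single (Sum.inl none) 1 = μ then 1 else 0)
      + ∑ i, (X (Sum.inl (some i)) * rename Sum.inr ((E.get i).poly ℤ)).coeff μ := by
    rw [cubic, coeff_add, coeff_sub, coeff_X_pow, coeff_X, coeff_sum]
  by_cases h : ∃ i, (X (Sum.inl (some i)) * rename Sum.inr ((E.get i).poly ℤ)).coeff μ ≠ 0
  · obtain ⟨i, hi⟩ := h
    rw [coeff_X_mul'] at hi
    split_ifs at hi with hs
    · obtain ⟨u, hu, _⟩ := coeff_rename_ne_zero _ _ _ hi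
      have hval : ∀ j, u.mapDomain Sum.inr (Sum.inl j : Option (Fin E.length) ⊕ Fin n) = 0 :=
        fun j => Finsupp.mapDomain_of_notMem_range _ _ (by simp)
      have hle : Finsupp.single (Sum.inl (some i)) 1 ≤ μ := by
        rw [Finsupp.single_le_iff]
        exact Nat.one_le_iff_ne_zero.mpr (Finsupp.mem_support_iff.mp hs)
      have hμ : μ = u.mapDomain Sum.inr + Finsupp.single (Sum.inl (some i)) 1 := by
        rw [hu, tsub_add_cancel_of_le hle]
      have hnone : μ (Sum.inl none) = 0 := by
        rw [hμ, Finsupp.add_apply, hval, Finsupp.single_apply, if_neg (by simp), add_zero]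
      have hother : ∀ j, j ≠ i → μ (Sum.inl (some j)) = 0 := by
        intro j hj
        rw [hμ, Finsupp.add_apply, hval, Finsupp.single_apply, if_neg (by simp [hj.symm]),
          add_zero]
      have h2 : Finsupp.single (Sum.inl none) 2 ≠ μ := by
        intro h; rw [← h] at hnone; simp at hnone
      have h1 : Finsupp.single (Sum.inl none) 1 ≠ μ := by
        intro h; rw [← h] at hnone; simp at hnone
      have h3 : ∑ i, (X (Sum.inl (some i)) * rename Sum.inr ((E.get i).poly ℤ)).coeff μ
          = (X (Sum.inl (some i)) * rename Sum.inr ((E.get i).poly ℤ)).coeff μ := by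
        refine Finset.sum_eq_single i (fun j _ hj => ?_) (fun h => absurd (Finset.mem_univ _) h)
        rw [coeff_X_mul', if_neg]
        rw [Finsupp.mem_support_iff, not_not]
        exact hother j hj
      have h4 : (X (Sum.inl (some i)) * rename Sum.inr ((E.get i).poly ℤ)).coeff μ
          = ((E.get i).poly ℤ).coeff u := by
        rw [coeff_X_mul', if_pos hs, ← hu]
        exact coeff_rename_mapDomain _ Sum.inr_injective _ _
      rw [hsum, if_neg h2, if_neg h1, h3, h4]
      simpa using coeff_poly (E.get i) u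
    · exact absurd rfl hi
  · push Not at h
    rw [hsum, Finset.sum_eq_zero (fun i _ => h i)]
    split_ifs <;> simp

/-- The affine hypersurface of the cubic polynomial is the spectrum of the ring `QR`. -/
theorem exists_equiv_QR (k : Type) [Field k] (E : List (Eqn (Fin n))) :
    Nonempty ((MvPolynomial (Option (Fin E.length) ⊕ Fin n) k ⧸ Ideal.span {cubic k E}) ≃ₐ[k]
      QR (MvPolynomial (Fin n) k) (fun i : Fin E.length => (E.get i).poly k)) := by
  refine ⟨Ideal.quotientEquivAlg _ _ (sumAlgEquiv k (Option (Fin E.length)) (Fin n)) ?_⟩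
  rw [Ideal.map_span, Set.image_singleton]
  congr 2
  rw [qpoly, cubic]
  have h : ∀ p : MvPolynomial (Fin n) k,
      sumAlgEquiv k (Option (Fin E.length)) (Fin n) (rename Sum.inr p) = C p := by
    intro p
    have := congrArg (fun γ => γ p) (sumAlgEquiv_comp_rename_inr (R := k)
      (S₁ := Option (Fin E.length)) (S₂ := Fin n))
    exact this
  simp only [RingHom.coe_coe, map_add, map_sub, map_pow, map_sum, map_mul, h, sumAlgEquiv_X_inl]
  congr 1
  refine Finset.sum_congr rfl fun i _ => ?_
  rw [mul_comm]

end Pool.Agent.H17.CU
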