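import Mathlib

/-!
# Cubic universality: all definitions of the statement (helper17, MP_537ea0_ag and MP_550f75_ag)
-/

namespace Pool.Agent.H17.CU

open AlgebraicGeometry CategoryTheory Limits

/-- Schemes over `k`. -/
abbrev Sch (k : Type) [CommRing k] : Type 1 := Over (Spec (CommRingCat.of k))

/-- The affine scheme of a `k`-algebra, as a scheme over `k`. -/
noncomputable def aff (k : Type) [CommRing k] (R : Type) [CommRing R] [Algebra k R] : Sch k :=
  Over.mk (Spec.map (CommRingCat.ofHom (algebraMap k R)))

/-- A morphism of affine schemes over `k` given by an algebra homomorphism. -/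
noncomputable def affMap {k : Type} [CommRing k] {R S : Type} [CommRing R] [CommRing S]
    [Algebra k R] [Algebra k S] (φ : R →ₐ[k] S) : aff k S ⟶ aff k R :=
  Over.homMk (Spec.map (CommRingCat.ofHom φ.toRingHom)) (by
    simp only [aff, Over.mk_left, Over.mk_hom, Functor.const_obj_obj, Functor.id_obj]
    rw [← Spec.map_comp, ← CommRingCat.ofHom_comp]
    congr 2
    exact φ.comp_algebraMap)

/-- `p` is flat and all its fibres are affine spaces: for every point of the target with values in
a field `F` the fibre is `𝔸ᵐ` over `F` for some `m`. -/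
def AffineFibres {X Y : Scheme.{0}} (p : X ⟶ Y) : Prop :=
  Flat p ∧ ∀ (F : Type) [Field F] (y : Spec (.of F) ⟶ Y),
    ∃ (m : ℕ) (g : 𝔸(Fin m; Spec (.of F)) ⟶ X),
      IsPullback g (𝔸(Fin m; Spec (.of F)) ↘ Spec (.of F)) p y

/-- Separated schemes of finite type over `k`. -/
def FT {k : Type} [CommRing k] (X : Sch k) : Prop :=
  LocallyOfFiniteType X.hom ∧ QuasiCompact X.hom ∧ IsSeparated X.hom

/-- Smooth separated schemes of finite type over `k`. -/
def Sm {k : Type} [CommRing k] (X : Sch k) : Prop :=
  FT X ∧ Smooth X.hom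

/-- Jouanolou's property: `X` is the base of a flat morphism with fibres affine spaces whose
source is a smooth affine variety. -/
def Jouanolou {k : Type} [Field k] (X : Sch k) : Prop :=
  ∃ (R : Type) (_ : CommRing R) (_ : Algebra k R) (_ : Algebra.Smooth k R) (p : aff k R ⟶ X),
    AffineFibres p.left

/-! ### Chow groups -/

/-- The data of a Chow theory: Chow groups `A X` and higher Chow groups `A1 X = CH(X, 1)`, with
rational coefficients, of schemes `X` over `k`, with pull-backs, push-forwards and boundary
maps. -/
structure ChowData (k : Type) [Field k] where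
  /-- Chow groups with rational coefficients -/
  A : Sch k → Type
  /-- higher Chow groups `CH(X, 1)` with rational coefficients -/
  A1 : Sch k → Type
  [grpA : ∀ X, AddCommGroup (A X)]
  [grpA1 : ∀ X, AddCommGroup (A1 X)]
  [modA : ∀ X, Module ℚ (A X)]
  [modA1 : ∀ X, Module ℚ (A1 X)]
  /-- pull-back (meaningful for flat morphisms) -/
  pull : ∀ {X Y : Sch k} (_ : X ⟶ Y), A Y →ₗ[ℚ] A X
  /-- pull-back of higher Chow groups (meaningful for flat morphisms) -/
  pull1 : ∀ {X Y : Sch k} (_ : X ⟶ Y), A1 Y →ₗ[ℚ] A1 X
  /-- push-forward (meaningful for closed immersions) -/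
  push : ∀ {X Y : Sch k} (_ : X ⟶ Y), A X →ₗ[ℚ] A Y
  /-- boundary map (meaningful for a closed immersion `i` and its open complement `j`) -/
  bd : ∀ {Z X U : Sch k} (_ : Z ⟶ X) (_ : U ⟶ X), A1 U →ₗ[ℚ] A Z

attribute [instance] ChowData.grpA ChowData.grpA1 ChowData.modA ChowData.modA1

/-- `i` is a closed immersion and `j` is an open immersion with image the complement of the
image of `i`, all schemes being separated and of finite type over `k`. -/
structure ClosedOpen {k : Type} [Field k] {Z X U : Sch k} (i : Z ⟶ X) (j : U ⟶ X) : Prop where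
  ftZ : FT Z
  ftX : FT X
  ftU : FT U
  closed : IsClosedImmersion i.left
  opn : IsOpenImmersion j.left
  compl : Set.range j.left = (Set.range i.left)ᶜ

/-- The `f i` identify the `X i` with pairwise disjoint open and closed subschemes of `Y`, all
schemes being separated and of finite type over `k`. -/
structure Clopens {k : Type} [Field k] {ι : Type} {X : ι → Sch k} {Y : Sch k}
    (f : ∀ i, X i ⟶ Y) : Prop where
  ftX : ∀ i, FT (X i)
  ftY : FT Y
  closed : ∀ i, IsClosedImmersion (f i).left
  opn : ∀ i, IsOpenImmersion (f i).left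
  disj : ∀ i j, i ≠ j → Disjoint (Set.range (f i).left) (Set.range (f j).left)

section

variable {k : Type} [Field k] (T : ChowData k)

/-- functoriality of the flat pull-back -/
def Pull1Comp : Prop := ∀ {X Y Z : Sch k} (f : X ⟶ Y) (g : Y ⟶ Z), FT X → FT Y → FT Z →
    Flat f.left → Flat g.left → ∀ a, T.pull1 (f ≫ g) a = T.pull1 f (T.pull1 g a)

/-- functoriality of the push-forward -/
def PushComp : Prop := ∀ {X Y Z : Sch k} (f : X ⟶ Y) (g : Y ⟶ Z), FT X → FT Y → FT Z →
    IsClosedImmersion f.left → IsClosedImmersion g.left →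
    ∀ a, T.push (f ≫ g) a = T.push g (T.push f a)

/-- finitely many disjoint open and closed subschemes `X i` of `Y`: the sum of the groups `A (X i)`
embeds into `A Y` -/
def PushClopen : Prop := ∀ {ι : Type} [Fintype ι] {X : ι → Sch k} {Y : Sch k}
    (f : ∀ i, X i ⟶ Y), Clopens f →
    ∀ a : ∀ i, T.A (X i), ∑ i, T.push (f i) (a i) = 0 → ∀ i, a i = 0

/-- localisation: `∂ ∘ j^* = 0` -/
def BdPull1 : Prop := ∀ {Z X U : Sch k} (i : Z ⟶ X) (j : U ⟶ X), ClosedOpen i j →
    ∀ a, T.bd i j (T.pull1 j a) = 0

/-- localisation: the kernel of `i_*` is the image of `∂` -/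
def Exact : Prop := ∀ {Z X U : Sch k} (i : Z ⟶ X) (j : U ⟶ X), ClosedOpen i j →
    ∀ z, T.push i z = 0 → ∃ u, T.bd i j u = z

/-- homotopy invariance -/
def PullInj : Prop := ∀ {X Y : Sch k} (f : X ⟶ Y), FT X → FT Y → AffineFibres f.left →
    Function.Injective (T.pull f)

/-- homotopy invariance -/
def Pull1Surj : Prop := ∀ {X Y : Sch k} (f : X ⟶ Y), FT X → FT Y → AffineFibres f.left →
    Function.Surjective (T.pull1 f)

end

/-- The standard properties of Chow groups `A` and of the higher Chow groups `A1` of separated
schemes of finite type over `k` which are used: functoriality, disjoint unions, localisation,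
homotopy invariance. -/
structure ChowTheory (k : Type) [Field k] extends ChowData k where
  pull1_comp : Pull1Comp toChowData
  push_comp : PushComp toChowData
  push_clopen : PushClopen toChowData
  bd_pull1 : BdPull1 toChowData
  exact : Exact toChowData
  pull_inj : PullInj toChowData
  pull1_surj : Pull1Surj toChowData

/-- A family of subspaces `K X ⊆ A X`, stable under flat pull-back and under push-forward along
closed immersions between smooth varieties; for example the kernel of the Abel-Jacobi map on the
classes with zero cohomology class. -/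
structure Stable {k : Type} [Field k] (T : ChowTheory k) where
  /-- the subspaces -/
  K : ∀ X, Submodule ℚ (T.A X)
  pull_mem : ∀ {X Y : Sch k} (f : X ⟶ Y), Sm X → Sm Y → Flat f.left →
    ∀ a ∈ K Y, T.pull f a ∈ K X
  push_mem : ∀ {X Y : Sch k} (f : X ⟶ Y), Sm X → Sm Y → IsClosedImmersion f.left →
    ∀ a ∈ K X, T.push f a ∈ K Y

/-! ### The cubic hypersurfaces -/

open MvPolynomial

/-- The elementary equations: `z_a z_b = z_c`, `z_a + z_b = z_c` with `a ≠ b`, and `z_a = 1`. -/
inductive Eqn (σ : Type)
  | mul (a b c : σ)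
  | add (a b c : σ) (h : a ≠ b)
  | one (a : σ)

/-- The polynomial of an equation. -/
noncomputable def Eqn.poly {σ : Type} (R : Type) [CommRing R] : Eqn σ → MvPolynomial σ R
  | .mul a b c => X a * X b - X c
  | .add a b c _ => X a + X b - X c
  | .one a => X a - 1

/-- The polynomial `s² - s + ∑ xᵢ fᵢ(z)`, where `fᵢ` are the polynomials of the elementary
equations in the list `E`; the variables are `s = X (inl none)`, `xᵢ = X (inl (some i))` and
`z_a = X (inr a)`. -/
noncomputable def cubic (R : Type) [CommRing R] {n : ℕ} (E : List (Eqn (Fin n))) :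
    MvPolynomial (Option (Fin E.length) ⊕ Fin n) R :=
  X (Sum.inl none) ^ 2 - X (Sum.inl none)
    + ∑ i, X (Sum.inl (some i)) * rename Sum.inr ((E.get i).poly R)

/-- The affine hypersurface over `k` defined by a polynomial with integral coefficients. -/
noncomputable def hyp (k : Type) [Field k] {σ : Type} (F : MvPolynomial σ ℤ) :
    Sch k :=
  aff k (MvPolynomial σ k ⧸ Ideal.span {MvPolynomial.map (Int.castRingHom k) F})

/-- `Spec R` is an integral variety over `k` whose function field is purely transcendental. -/
def IsRationalVar (k : Type) [Field k] (R : Type) [CommRing R] [Algebra k R] : Prop :=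
  IsDomain R ∧ ∃ N : ℕ, Nonempty (FractionRing R ≃ₐ[k] FractionRing (MvPolynomial (Fin N) k))

/-- `F` has degree `3` and coefficients `0, 1, -1`, and the affine hypersurface `F = 0` over `k` is
a smooth rational variety. -/
structure SmallCubic (k : Type) [Field k] {σ : Type} (F : MvPolynomial σ ℤ) : Prop where
  degree : F.totalDegree = 3
  coeff : ∀ μ, F.coeff μ = 0 ∨ F.coeff μ = 1 ∨ F.coeff μ = -1
  smooth : Sm (hyp k F)
  rational : IsRationalVar k (MvPolynomial σ k ⧸ Ideal.span {MvPolynomial.map (Int.castRingHom k) F})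

/-- The list `E` contains an equation `z_a z_b = z_c`. -/
def HasMul {n : ℕ} (E : List (Eqn (Fin n))) : Prop := ∃ a b c, Eqn.mul a b c ∈ E

/-- The hypersurface `W_E` over `k` of the list `E`. -/
noncomputable def WE (k : Type) [Field k] {n : ℕ} (E : List (Eqn (Fin n))) : Sch k :=
  hyp k (cubic ℤ E)

/-- The sum of `2 ^ t` copies of the vector space `M` embeds into `N`. -/
def EmbedsPow (t : ℕ) (M N : Type) [AddCommGroup M] [Module ℚ M] [AddCommGroup N] [Module ℚ N] :
    Prop :=
  ∃ Φ : ((Fin t → Bool) → M) →ₗ[ℚ] N, Function.Injective Φ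

/-! ### The four conditions -/

section

variable {k : Type} [Field k] {T : ChowTheory k} (K : Stable T)

/-- The sum of `2 ^ t` copies of `K X` embeds into `K W_E` for some list `E` of length `C + t`
(which contains an equation `z_a z_b = z_c` if `t > 0`). -/
def Stable.Embeds (X : Sch k) (C t : ℕ) : Prop :=
  ∃ (n : ℕ) (E : List (Eqn (Fin n))), E.length = C + t ∧ (0 < t → HasMul E) ∧
    EmbedsPow t (K.K X) (K.K (WE k E))

/-- `K X = 0` for every smooth variety `X` with Jouanolou's property. -/
def Stable.VanishAll : Prop := ∀ X, Sm X → Jouanolou X → K.K X = ⊥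

/-- `K = 0` for all smooth rational affine hypersurfaces over `k` which are given by a polynomial
of degree `3` with all coefficients `0, 1, -1`. -/
def Stable.VanishSmallCubic : Prop :=
  ∀ (σ : Type) [Finite σ] (F : MvPolynomial σ ℤ), SmallCubic k F → K.K (hyp k F) = ⊥

/-- `K W_E = 0` for all lists `E` which contain an equation `z_a z_b = z_c`. -/
def Stable.VanishEqn : Prop :=
  ∀ (n : ℕ) (E : List (Eqn (Fin n))), HasMul E → K.K (WE k E) = ⊥

/-- For every `C` there is `l ≥ C` such that `K W_E` has rank less than `2 ^ (l - C)` for all lists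
`E` of length `l`. -/
def Stable.RankGap : Prop :=
  ∀ C : ℕ, ∃ l : ℕ, C ≤ l ∧ ∀ (n : ℕ) (E : List (Eqn (Fin n))), E.length = l →
    Module.rank ℚ (K.K (WE k E)) < 2 ^ (l - C)

end

end Pool.Agent.H17.CU
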