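import Pool.Agent.H17.CU.Defs

/-!
# Systems of equations `z_a z_b = z_c`, `z_a + z_b = z_c`, `z_a = 1` (helper17)
-/

namespace Pool.Agent.H17.CU

open MvPolynomial

namespace Eqn

variable {σ τ : Type}

/-- The equation holds at the point `z`. -/
def Holds {D : Type} [CommRing D] (z : σ → D) : Eqn σ → Prop
  | mul a b c => z a * z b = z c
  | add a b c _ => z a + z b = z c
  | one a => z a = 1

/-- Renaming of the variables. -/
def map (f : σ ↪ τ) : Eqn σ → Eqn τ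
  | mul a b c => mul (f a) (f b) (f c)
  | add a b c h => add (f a) (f b) (f c) (fun h' => h (f.injective h'))
  | one a => one (f a)

theorem holds_iff {k : Type} [CommRing k] {D : Type} [CommRing D] [Algebra k D] (z : σ → D)
    (e : Eqn σ) : e.Holds z ↔ aeval z (e.poly k) = 0 := by
  cases e <;> simp [Holds, poly, sub_eq_zero]

theorem holds_map {D : Type} [CommRing D] (f : σ ↪ τ) (z : τ → D) (e : Eqn σ) :
    (e.map f).Holds z ↔ e.Holds (z ∘ f) := by
  cases e <;> simp [Holds, map]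

theorem Holds.hom {D D' : Type} [CommRing D] [CommRing D'] {z : σ → D} {e : Eqn σ}
    (h : e.Holds z) (φ : D →+* D') : e.Holds (φ ∘ z) := by
  cases e with
  | mul a b c => simpa [Holds] using congrArg φ h
  | add a b c _ => simpa [Holds] using congrArg φ h
  | one a => simpa [Holds] using congrArg φ h

end Eqn

/-- All the equations of the list hold at `z`. -/
def Sol {σ : Type} {D : Type} [CommRing D] (E : List (Eqn σ)) (z : σ → D) : Prop :=
  ∀ e ∈ E, e.Holds z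

theorem sol_append {σ : Type} {D : Type} [CommRing D] (E E' : List (Eqn σ)) (z : σ → D) :
    Sol (E ++ E') z ↔ Sol E z ∧ Sol E' z := by
  simp only [Sol, List.mem_append]
  constructor
  · exact fun h => ⟨fun e he => h e (Or.inl he), fun e he => h e (Or.inr he)⟩
  · rintro ⟨h1, h2⟩ e (he | he)
    · exact h1 e he
    · exact h2 e he

theorem sol_map {σ τ : Type} {D : Type} [CommRing D] (f : σ ↪ τ) (E : List (Eqn σ)) (z : τ → D) :
    Sol (E.map (Eqn.map f)) z ↔ Sol E (z ∘ f) := by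
  simp only [Sol, List.mem_map]
  constructor
  · intro h e he
    exact (Eqn.holds_map f z e).mp (h _ ⟨e, he, rfl⟩)
  · rintro h _ ⟨e, he, rfl⟩
    exact (Eqn.holds_map f z e).mpr (h e he)

theorem Sol.hom {σ : Type} {D D' : Type} [CommRing D] [CommRing D'] {z : σ → D}
    {E : List (Eqn σ)} (h : Sol E z) (φ : D →+* D') : Sol E (φ ∘ z) :=
  fun e he => (h e he).hom φ

/-- A polynomial whose value is computed by a system of elementary equations: for every point `t`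
the system has exactly one solution `w`, and the value of the polynomial is `w out`. -/
def Computable {τ : Type} (p : MvPolynomial τ ℤ) : Prop :=
  ∃ (ρ : Type) (_ : Finite ρ) (E : List (Eqn (τ ⊕ ρ))) (out : ρ),
    ∀ (D : Type) [CommRing D] (t : τ → D),
      ∃ w : ρ → D, Sol E (Sum.elim t w) ∧ w out = aeval t p ∧
        ∀ w' : ρ → D, Sol E (Sum.elim t w') → w' = w

/-- The embedding `τ ⊕ ρ₁ → τ ⊕ (ρ₁ ⊕ ρ₂)`. -/
def emb1 (τ ρ₁ ρ₂ : Type) : τ ⊕ ρ₁ ↪ τ ⊕ (ρ₁ ⊕ ρ₂) where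
  toFun := Sum.map id Sum.inl
  inj' := Function.injective_id.sumMap Sum.inl_injective

/-- The embedding `τ ⊕ ρ₂ → τ ⊕ (ρ₁ ⊕ ρ₂)`. -/
def emb2 (τ ρ₁ ρ₂ : Type) : τ ⊕ ρ₂ ↪ τ ⊕ (ρ₁ ⊕ ρ₂) where
  toFun := Sum.map id Sum.inr
  inj' := Function.injective_id.sumMap Sum.inr_injective

theorem elim_comp_emb1 {τ ρ₁ ρ₂ D : Type} (t : τ → D) (w : ρ₁ ⊕ ρ₂ → D) :
    Sum.elim t w ∘ emb1 τ ρ₁ ρ₂ = Sum.elim t (w ∘ Sum.inl) := by
  funext x
  cases x <;> rfl

theorem elim_comp_emb2 {τ ρ₁ ρ₂ D : Type} (t : τ → D) (w : ρ₁ ⊕ ρ₂ → D) :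
    Sum.elim t w ∘ emb2 τ ρ₁ ρ₂ = Sum.elim t (w ∘ Sum.inr) := by
  funext x
  cases x <;> rfl

namespace Computable

variable {τ : Type}

theorem one : Computable (1 : MvPolynomial τ ℤ) := by
  refine ⟨Unit, inferInstance, [Eqn.one (Sum.inr ())], (), fun D _ t => ⟨fun _ => 1, ?_, ?_, ?_⟩⟩
  · intro e he
    rw [List.mem_singleton] at he
    subst he
    rfl
  · simp
  · intro w' hw'
    funext x
    exact hw' _ (List.mem_singleton.mpr rfl)

theorem zero : Computable (0 : MvPolynomial τ ℤ) := by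
  refine ⟨Bool, inferInstance, [Eqn.one (Sum.inr true),
    Eqn.add (Sum.inr true) (Sum.inr false) (Sum.inr true) (by simp)], false,
    fun D _ t => ⟨fun b => if b then 1 else 0, ?_, ?_, ?_⟩⟩
  · intro e he
    simp only [List.mem_cons, List.not_mem_nil, or_false] at he
    rcases he with rfl | rfl
    · simp [Eqn.Holds]
    · simp [Eqn.Holds]
  · simp
  · intro w' hw'
    have h1 : w' true = 1 := hw' _ (List.mem_cons_self)
    have h2 : w' true + w' false = w' true := hw' _ (List.mem_cons_of_mem _ List.mem_cons_self)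
    funext x
    cases x with
    | false => simpa using h2
    | true => simpa using h1

theorem var (i : τ) : Computable (X i : MvPolynomial τ ℤ) := by
  refine ⟨Bool, inferInstance, [Eqn.one (Sum.inr true),
    Eqn.mul (Sum.inr true) (Sum.inl i) (Sum.inr false)], false,
    fun D _ t => ⟨fun b => if b then 1 else t i, ?_, ?_, ?_⟩⟩
  · intro e he
    simp only [List.mem_cons, List.not_mem_nil, or_false] at he
    rcases he with rfl | rfl
    · simp [Eqn.Holds]
    · simp [Eqn.Holds]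
  · simp
  · intro w' hw'
    have h1 : w' true = 1 := hw' _ (List.mem_cons_self)
    have h2 : w' true * t i = w' false := hw' _ (List.mem_cons_of_mem _ List.mem_cons_self)
    funext x
    cases x with
    | false => rw [← h2, h1]; simp
    | true => simpa using h1

/-- Combination of two computable polynomials by one more elementary equation. -/
theorem combine {p q r : MvPolynomial τ ℤ} (hp : Computable p) (hq : Computable q)
    (h : ∀ (σ : Type) (a b z : σ), a ≠ b → b ≠ z → ∃ e : Eqn σ, ∀ (D : Type) [CommRing D]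
      (v : σ → D) (t : τ → D), v a = aeval t p → v b = aeval t q →
        (e.Holds v ↔ v z = aeval t r)) : Computable r := by
  obtain ⟨ρ₁, f₁, E₁, o₁, h₁⟩ := hp
  obtain ⟨ρ₂, f₂, E₂, o₂, h₂⟩ := hq
  -- the variables: `ρ₁ ⊕ ρ₂` and one more
  obtain ⟨e, he⟩ := h (τ ⊕ ((ρ₁ ⊕ ρ₂) ⊕ Unit)) (Sum.inr (Sum.inl (Sum.inl o₁)))
    (Sum.inr (Sum.inl (Sum.inr o₂))) (Sum.inr (Sum.inr ())) (by simp) (by simp)
  refine ⟨(ρ₁ ⊕ ρ₂) ⊕ Unit, inferInstance,
    (E₁.map (Eqn.map (emb1 τ ρ₁ ρ₂)) ++ E₂.map (Eqn.map (emb2 τ ρ₁ ρ₂))).map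
      (Eqn.map (emb1 τ (ρ₁ ⊕ ρ₂) Unit)) ++ [e], Sum.inr (), fun D _ t => ?_⟩
  obtain ⟨w₁, hw₁, ho₁, hu₁⟩ := h₁ D t
  obtain ⟨w₂, hw₂, ho₂, hu₂⟩ := h₂ D t
  have key : ∀ w : (ρ₁ ⊕ ρ₂) ⊕ Unit → D,
      Sol ((E₁.map (Eqn.map (emb1 τ ρ₁ ρ₂)) ++ E₂.map (Eqn.map (emb2 τ ρ₁ ρ₂))).map
        (Eqn.map (emb1 τ (ρ₁ ⊕ ρ₂) Unit)) ++ [e]) (Sum.elim t w) ↔
      (Sol E₁ (Sum.elim t ((w ∘ Sum.inl) ∘ Sum.inl)) ∧
        Sol E₂ (Sum.elim t ((w ∘ Sum.inl) ∘ Sum.inr))) ∧ e.Holds (Sum.elim t w) := by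
    intro w
    rw [sol_append, sol_map, elim_comp_emb1, sol_append, sol_map, sol_map, elim_comp_emb1,
      elim_comp_emb2]
    simp [Sol]
  refine ⟨Sum.elim (Sum.elim w₁ w₂) (fun _ => aeval t r), ?_, rfl, ?_⟩
  · rw [key]
    refine ⟨⟨hw₁, hw₂⟩, ?_⟩
    rw [he D _ t]
    · rfl
    · exact ho₁
    · exact ho₂
  · intro w' hw'
    rw [key] at hw'
    obtain ⟨⟨a1, a2⟩, a3⟩ := hw'
    have b1 := hu₁ _ a1
    have b2 := hu₂ _ a2
    funext x
    rcases x with (x | x) | x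
    · exact congrFun b1 x
    · exact congrFun b2 x
    · rw [he D _ t] at a3
      · exact a3
      · exact (congrFun b1 o₁).trans ho₁
      · exact (congrFun b2 o₂).trans ho₂

theorem mul {p q : MvPolynomial τ ℤ} (hp : Computable p) (hq : Computable q) :
    Computable (p * q) :=
  combine hp hq fun σ a b z _ _ => ⟨Eqn.mul a b z, fun D _ v t ha hb => by
    simp only [Eqn.Holds, ha, hb, map_mul]
    exact eq_comm⟩

theorem add {p q : MvPolynomial τ ℤ} (hp : Computable p) (hq : Computable q) :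
    Computable (p + q) :=
  combine hp hq fun σ a b z hab _ => ⟨Eqn.add a b z hab, fun D _ v t ha hb => by
    simp only [Eqn.Holds, ha, hb, map_add]
    exact eq_comm⟩

theorem sub {p q : MvPolynomial τ ℤ} (hp : Computable p) (hq : Computable q) :
    Computable (p - q) :=
  combine hp hq fun σ a b z _ hbz => ⟨Eqn.add b z a hbz, fun D _ v t ha hb => by
    simp only [Eqn.Holds, ha, hb, map_sub]
    rw [eq_sub_iff_add_eq, add_comm]⟩

theorem const (n : ℤ) : Computable (C n : MvPolynomial τ ℤ) := by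
  induction n using Int.induction_on with
  | zero => simpa using zero
  | succ n ih => simpa using ih.add one
  | pred n ih => simpa using ih.sub one

theorem all (p : MvPolynomial τ ℤ) : Computable p := by
  induction p using MvPolynomial.induction_on with
  | C a => exact const a
  | add p q hp hq => exact hp.add hq
  | mul_X p i hp => exact hp.mul (var i)

end Computable

/-- Every finite system of polynomial equations with integral coefficients is equivalent to a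
system of elementary equations. -/
theorem exists_system {τ : Type} (S : List (MvPolynomial τ ℤ)) :
    ∃ (ρ : Type) (_ : Finite ρ) (E : List (Eqn (τ ⊕ ρ))),
      ∀ (D : Type) [CommRing D] (t : τ → D),
        ((∀ p ∈ S, aeval t p = 0) → ∃ w : ρ → D, Sol E (Sum.elim t w)) ∧
        (∀ w : ρ → D, Sol E (Sum.elim t w) → ∀ p ∈ S, aeval t p = 0) ∧
        (∀ w w' : ρ → D, Sol E (Sum.elim t w) → Sol E (Sum.elim t w') → w = w') := by
  induction S with
  | nil =>
    refine ⟨Empty, inferInstance, [], fun D _ t => ⟨fun _ => ⟨Empty.elim, ?_⟩, ?_, ?_⟩⟩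
    · intro e he
      simp at he
    · intro w _ p hp
      simp at hp
    · intro w w' _ _
      funext x
      exact x.elim
  | cons p S ih =>
    obtain ⟨ρ₀, f₀, E₀, h₀⟩ := ih
    obtain ⟨ρ₁, f₁, E₁, o₁, h₁⟩ := Computable.all p
    let e1 : Eqn (τ ⊕ ((ρ₀ ⊕ ρ₁) ⊕ Unit)) := Eqn.one (Sum.inr (Sum.inr ()))
    let e2 : Eqn (τ ⊕ ((ρ₀ ⊕ ρ₁) ⊕ Unit)) := Eqn.add (Sum.inr (Sum.inr ()))
      (Sum.inr (Sum.inl (Sum.inr o₁))) (Sum.inr (Sum.inr ())) (by simp)
    refine ⟨(ρ₀ ⊕ ρ₁) ⊕ Unit, inferInstance,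
      (E₀.map (Eqn.map (emb1 τ ρ₀ ρ₁)) ++ E₁.map (Eqn.map (emb2 τ ρ₀ ρ₁))).map
      (Eqn.map (emb1 τ (ρ₀ ⊕ ρ₁) Unit)) ++ [e1, e2], fun D _ t => ?_⟩
    obtain ⟨w₁, hw₁, ho₁, hu₁⟩ := h₁ D t
    obtain ⟨g1, g2, g3⟩ := h₀ D t
    have key : ∀ w : (ρ₀ ⊕ ρ₁) ⊕ Unit → D,
        Sol ((E₀.map (Eqn.map (emb1 τ ρ₀ ρ₁)) ++ E₁.map (Eqn.map (emb2 τ ρ₀ ρ₁))).map
          (Eqn.map (emb1 τ (ρ₀ ⊕ ρ₁) Unit)) ++ [e1, e2]) (Sum.elim t w) ↔
        (Sol E₀ (Sum.elim t ((w ∘ Sum.inl) ∘ Sum.inl)) ∧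
          Sol E₁ (Sum.elim t ((w ∘ Sum.inl) ∘ Sum.inr))) ∧
          (w (Sum.inr ()) = 1 ∧ w (Sum.inr ()) + w (Sum.inl (Sum.inr o₁)) = w (Sum.inr ())) := by
      intro w
      rw [sol_append, sol_map, elim_comp_emb1, sol_append, sol_map, sol_map, elim_comp_emb1,
        elim_comp_emb2]
      simp [Sol, e1, e2, Eqn.Holds]
    refine ⟨fun hS => ?_, fun w hw => ?_, fun w w' hw hw' => ?_⟩
    · obtain ⟨w₀, hw₀⟩ := g1 fun q hq => hS q (List.mem_cons_of_mem _ hq)
      refine ⟨Sum.elim (Sum.elim w₀ w₁) (fun _ => 1), ?_⟩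
      rw [key]
      refine ⟨⟨hw₀, hw₁⟩, rfl, ?_⟩
      simp only [Sum.elim_inr, Sum.elim_inl, ho₁, hS p List.mem_cons_self, add_zero]
    · rw [key] at hw
      obtain ⟨⟨a1, a2⟩, a3, a4⟩ := hw
      intro q hq
      rcases List.mem_cons.mp hq with rfl | hq
      · rw [← ho₁, ← hu₁ _ a2]
        simpa using a4
      · exact g2 _ a1 q hq
    · rw [key] at hw hw'
      obtain ⟨⟨a1, a2⟩, a3, a4⟩ := hw
      obtain ⟨⟨b1, b2⟩, b3, b4⟩ := hw'
      have c1 := g3 _ _ a1 b1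
      have c2 := (hu₁ _ a2).trans (hu₁ _ b2).symm
      funext x
      rcases x with (x | x) | x
      · exact congrFun c1 x
      · exact congrFun c2 x
      · exact a3.trans b3.symm

end Pool.Agent.H17.CU
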