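import Pool.Agent.H17.CU.QR

/-!
# Fibres: over a field the complement of `V(g, s - 1)` in `Spec (QR F g)` is an affine space
-/

namespace Pool.Agent.H17.CU

open MvPolynomial

namespace QR

variable {F : Type} [Field F] {m : ℕ} (g : Fin m → F)

/-- The ideal `(g, s - 1)` of the closed subscheme. -/
def locus {B : Type} [CommRing B] {m : ℕ} (f : Fin m → B) : Set (QR B f) :=
  insert (var f none - 1) (Set.range fun i => algebraMap B (QR B f) (f i))

theorem fibre_nonzero (i₀ : Fin m) (h : g i₀ ≠ 0) :
    ∃ ψ : QR F g →ₐ[F] MvPolynomial (Fin m) F, Function.Bijective ψ := by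
  classical
  -- the values of the variables
  let T : MvPolynomial (Fin m) F := ∑ j ∈ Finset.univ.erase i₀, C (g j) * X j
  let v : Option (Fin m) → MvPolynomial (Fin m) F := fun i => match i with
    | none => X i₀
    | some i => if i = i₀ then C (g i₀)⁻¹ * (X i₀ - X i₀ ^ 2 - T) else X i
  have hv0 : v none = X i₀ := rfl
  have hvi : v (some i₀) = C (g i₀)⁻¹ * (X i₀ - X i₀ ^ 2 - T) := by simp [v]
  have hvj : ∀ j, j ≠ i₀ → v (some j) = X j := fun j hj => by simp [v, hj]
  have hC : (C (g i₀) : MvPolynomial (Fin m) F) * C (g i₀)⁻¹ = 1 := by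
    rw [← C_mul, mul_inv_cancel₀ h, C_1]
  have hv : v none ^ 2 - v none + ∑ i, algebraMap F _ (g i) * v (some i) = 0 := by
    have e : ∑ i, algebraMap F (MvPolynomial (Fin m) F) (g i) * v (some i)
        = C (g i₀) * v (some i₀) + T := by
      rw [← Finset.add_sum_erase _ _ (Finset.mem_univ i₀)]
      congr 1
      refine Finset.sum_congr rfl fun j hj => ?_
      rw [hvj j (Finset.ne_of_mem_erase hj)]
      rfl
    rw [e, hvi, hv0, ← mul_assoc, hC]
    ring
  let χ : MvPolynomial (Fin m) F →ₐ[F] QR F g :=
    aeval fun j => if j = i₀ then var g none else var g (some j)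
  have hχ0 : χ (X i₀) = var g none := by simp [χ]
  have hχj : ∀ j, j ≠ i₀ → χ (X j) = var g (some j) := fun j hj => by simp [χ, hj]
  have hχT : χ T = ∑ j ∈ Finset.univ.erase i₀, algebraMap F _ (g j) * var g (some j) := by
    simp only [T, map_sum, map_mul]
    refine Finset.sum_congr rfl fun j hj => ?_
    rw [hχj j (Finset.ne_of_mem_erase hj)]
    congr 1
    exact χ.commutes (g j)
  refine ⟨lift g v hv, ?_, ?_⟩
  · -- injective: `χ ∘ ψ = id`
    have hid : χ.comp (lift g v hv) = AlgHom.id F _ := by
      apply hom_ext
      intro i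
      rw [AlgHom.comp_apply, lift_var, AlgHom.id_apply]
      match i with
      | none => rw [hv0, hχ0]
      | some i =>
        by_cases hi : i = i₀
        · subst hi
          rw [hvi, map_mul, map_sub, map_sub, map_pow, hχ0, hχT]
          have hr := rel g
          rw [← Finset.add_sum_erase _ _ (Finset.mem_univ i)] at hr
          have hCC : χ (C (g i)⁻¹) = algebraMap F _ (g i)⁻¹ := χ.commutes _
          rw [hCC]
          have hu : algebraMap F (QR F g) (g i)⁻¹ * algebraMap F (QR F g) (g i) = 1 := by
            rw [← map_mul, inv_mul_cancel₀ h, map_one]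
          linear_combination (-(algebraMap F (QR F g) (g i)⁻¹)) * hr + (var g (some i)) * hu
        · rw [hvj i hi, hχj i hi]
    intro a b hab
    have h1 := congrArg χ hab
    have h2 : ∀ c, χ (lift g v hv c) = c := fun c => by
      rw [← AlgHom.comp_apply, hid, AlgHom.id_apply]
    rw [h2, h2] at h1
    exact h1
  · -- surjective
    have hid : (lift g v hv).comp χ = AlgHom.id F _ := by
      apply MvPolynomial.algHom_ext
      intro j
      rw [AlgHom.comp_apply, AlgHom.id_apply]
      by_cases hj : j = i₀
      · subst hj
        rw [hχ0, lift_var]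
      · rw [hχj j hj, lift_var, hvj j hj]
    intro c
    refine ⟨χ c, ?_⟩
    rw [← AlgHom.comp_apply, hid, AlgHom.id_apply]

theorem fibre_zero (h : ∀ i, g i = 0) :
    ∃ ψ : QR F g →ₐ[F] MvPolynomial (Fin m) F, Function.Surjective ψ ∧
      RingHom.ker ψ = Ideal.span {var g none} ∧ IsIdempotentElem (var g none) := by
  let v : Option (Fin m) → MvPolynomial (Fin m) F := fun i => match i with
    | none => 0
    | some i => X i
  have hv : v none ^ 2 - v none + ∑ i, algebraMap F _ (g i) * v (some i) = 0 := by
    simp [v, h]
  have hidem : var g none * var g none = var g none := by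
    have hr := rel g
    simp only [h, map_zero, zero_mul, Finset.sum_const_zero, add_zero] at hr
    linear_combination hr
  refine ⟨lift g v hv, ?_, ?_, hidem⟩
  · intro c
    refine ⟨aeval (fun j => var g (some j)) c, ?_⟩
    have hid : (lift g v hv).comp (aeval fun j => var g (some j)) = AlgHom.id F _ := by
      apply MvPolynomial.algHom_ext
      intro j
      simp [v]
    rw [← AlgHom.comp_apply, hid, AlgHom.id_apply]
  · apply le_antisymm
    · intro a ha
      rw [RingHom.mem_ker] at ha
      -- modulo `s` every element is the value of a polynomial in the `xᵢ`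
      have hmod : (Ideal.Quotient.mkₐ F (Ideal.span {var g none})).comp
          ((aeval fun j => var g (some j)).comp (lift g v hv))
          = Ideal.Quotient.mkₐ F (Ideal.span {var g none}) := by
        refine Ideal.Quotient.algHom_ext _ (MvPolynomial.algHom_ext ?_)
        intro i
        show (Ideal.Quotient.mkₐ F (Ideal.span {var g none}))
          ((aeval fun j => var g (some j)) (lift g v hv (var g i)))
            = Ideal.Quotient.mkₐ F (Ideal.span {var g none}) (var g i)
        match i with
        | none =>
          rw [lift_var]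
          simp only [v, map_zero]
          symm
          exact Ideal.Quotient.eq_zero_iff_mem.mpr (Ideal.mem_span_singleton_self _)
        | some i =>
          rw [lift_var]
          simp [v]
      have h1 := congrArg (fun φ : QR F g →ₐ[F] _ => φ a) hmod
      simp only [AlgHom.comp_apply] at h1
      have ha' : lift g v hv a = 0 := ha
      rw [ha', map_zero, map_zero] at h1
      exact Ideal.Quotient.eq_zero_iff_mem.mp h1.symm
    · rw [Ideal.span_le, Set.singleton_subset_iff, SetLike.mem_coe, RingHom.mem_ker]
      have := lift_var g v hv none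
      exact this

/-- The fibre: an open immersion of the affine space with image the complement of the locus. -/
theorem fibre : ∃ ψ : QR F g →ₐ[F] MvPolynomial (Fin m) F, Function.Surjective ψ ∧
    (∃ e, IsIdempotentElem e ∧ RingHom.ker ψ = Ideal.span {e}) ∧
    PrimeSpectrum.zeroLocus (RingHom.ker ψ : Set (QR F g))
      = (PrimeSpectrum.zeroLocus (locus g))ᶜ := by
  by_cases h : ∀ i, g i = 0
  · obtain ⟨ψ, hs, hk, hi⟩ := fibre_zero g h
    refine ⟨ψ, hs, ⟨_, hi, hk⟩, ?_⟩
    rw [hk, PrimeSpectrum.zeroLocus_span]
    ext p
    simp only [Set.mem_compl_iff, PrimeSpectrum.mem_zeroLocus, Set.singleton_subset_iff,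
      SetLike.mem_coe, locus, Set.insert_subset_iff, not_and_or]
    constructor
    · intro hp
      left
      intro hp1
      apply p.isPrime.ne_top
      rw [Ideal.eq_top_iff_one]
      have := p.asIdeal.sub_mem hp hp1
      simpa using this
    · rintro (hp | hp)
      · have h0 : var g none * (var g none - 1) ∈ p.asIdeal := by
          have : var g none * (var g none - 1) = 0 := by
            rw [mul_sub, mul_one, hi.eq, sub_self]
          rw [this]; exact p.asIdeal.zero_mem
        rcases p.isPrime.mem_or_mem h0 with h1 | h1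
        · exact h1
        · exact absurd h1 hp
      · exfalso
        apply hp
        rintro _ ⟨i, rfl⟩
        simp [h]
  · push Not at h
    obtain ⟨i₀, hi₀⟩ := h
    obtain ⟨ψ, hb⟩ := fibre_nonzero g i₀ hi₀
    have hk : RingHom.ker ψ = ⊥ := (RingHom.injective_iff_ker_eq_bot ψ).mp hb.1
    refine ⟨ψ, hb.2, ⟨0, IsIdempotentElem.zero, by rw [hk]; simp⟩, ?_⟩
    rw [hk]
    ext p
    simp only [Set.mem_compl_iff, PrimeSpectrum.mem_zeroLocus]
    constructor
    · intro _ hp
      have h1 : algebraMap F (QR F g) (g i₀) ∈ p.asIdeal := by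
        apply hp
        right
        exact ⟨i₀, rfl⟩
      apply p.isPrime.ne_top
      apply Ideal.eq_top_of_isUnit_mem _ h1
      exact (IsUnit.mk0 _ hi₀).map _
    · intro _
      simp
end QR

end Pool.Agent.H17.CU
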