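import Pool.Agent.H17.CU.Cubic

/-!
# Cubic universality: assembly (helper17)
-/

namespace Pool.Agent.H17.CU

open MvPolynomial CategoryTheory Limits AlgebraicGeometry

variable {k : Type} [Field k]

/-- Smoothness of `Spec (QR B f)` for `B` smooth. -/
theorem smooth_QR {B : Type} [CommRing B] [Algebra k B] [Algebra.Smooth k B] {m : ℕ}
    (f : Fin m → B) : Algebra.Smooth k (QR B f) :=
  Algebra.Smooth.comp k B (QR B f)

theorem smooth_poly {R : Type} [CommRing R] [Algebra k R] [Algebra.Smooth k R] (m : ℕ) :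
    Algebra.Smooth k (MvPolynomial (Fin m) R) :=
  have : Algebra.Smooth R (MvPolynomial (Fin m) R) := {}
  Algebra.Smooth.comp k R (MvPolynomial (Fin m) R)

/-- The projection `𝔸ᵐ × Spec R → Spec R`. -/
noncomputable def projAff (k : Type) [Field k] (R : Type) [CommRing R] [Algebra k R] (m : ℕ) :
    aff k (MvPolynomial (Fin m) R) ⟶ aff k R :=
  affMap (IsScalarTower.toAlgHom k R (MvPolynomial (Fin m) R))

theorem affineFibres_proj (R : Type) [CommRing R] [Algebra k R] (m : ℕ) :
    AffineFibres (projAff k R m).left := affineFibres_poly m R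

/-- The closed immersion of a quotient by an idempotent is open. -/
theorem isOpenImmersion_affMap {C R : Type} [CommRing C] [CommRing R]
    [Algebra k C] [Algebra k R] (π : C →ₐ[k] R)
    (hπ : Function.Surjective π) (e : C) (he : IsIdempotentElem e)
    (hker : RingHom.ker π = Ideal.span {e}) : IsOpenImmersion (affMap π).left := by
  show IsOpenImmersion (Spec.map (CommRingCat.ofHom π.toRingHom))
  rw [isOpenImmersion_SpecMap_iff_of_surjective _ hπ]
  exact ⟨e, he, hker⟩

/-- The surjection `C[x] → R[x]`. -/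
noncomputable def polyMap {C R : Type} [CommRing C] [CommRing R] [Algebra k C] [Algebra k R]
    (π : C →ₐ[k] R) (m : ℕ) : MvPolynomial (Fin m) C →ₐ[k] MvPolynomial (Fin m) R :=
  MvPolynomial.mapAlgHom π

theorem polyMap_surjective {C R : Type} [CommRing C] [CommRing R] [Algebra k C] [Algebra k R]
    (π : C →ₐ[k] R) (hπ : Function.Surjective π) (m : ℕ) : Function.Surjective (polyMap π m) :=
  MvPolynomial.map_surjective π.toRingHom hπ

theorem polyMap_ker {C R : Type} [CommRing C] [CommRing R] [Algebra k C] [Algebra k R]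
    (π : C →ₐ[k] R) (m : ℕ) :
    RingHom.ker (polyMap π m) = (RingHom.ker π).map (MvPolynomial.C : C →+* _) := by
  rw [polyMap, MvPolynomial.ker_mapAlgHom]

/-- The coordinate ring of the cubic hypersurface. -/
abbrev HR (k : Type) [Field k] {n : ℕ} (E : List (Eqn (Fin n))) : Type :=
  MvPolynomial (Option (Fin E.length) ⊕ Fin n) k ⧸ Ideal.span {cubic k E}

theorem hyp_eq (k : Type) [Field k] {n : ℕ} (E : List (Eqn (Fin n))) :
    hyp k (cubic ℤ E) = aff k (HR k E) := by
  rw [hyp, cubic_map]

theorem smooth_HR (k : Type) [Field k] {n : ℕ} (E : List (Eqn (Fin n))) :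
    Algebra.Smooth k (HR k E) := by
  obtain ⟨e⟩ := exists_equiv_QR k E
  have : Algebra.Smooth k (MvPolynomial (Fin n) k) := {}
  have : Algebra.Smooth k (QR (MvPolynomial (Fin n) k) fun i : Fin E.length => (E.get i).poly k) :=
    smooth_QR _
  exact Algebra.Smooth.of_equiv e.symm

theorem sm_hyp (k : Type) [Field k] {n : ℕ} (E : List (Eqn (Fin n))) :
    Sm (hyp k (cubic ℤ E)) := by
  have := smooth_HR k E
  rw [hyp_eq]
  exact Sm.aff (HR k E)

theorem disjoint_zeroLocus {A : Type} [CommRing A] (I J : Ideal A) (h : I ⊔ J = ⊤) :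
    Disjoint (PrimeSpectrum.zeroLocus (I : Set A)) (PrimeSpectrum.zeroLocus (J : Set A)) := by
  rw [Set.disjoint_iff_inter_eq_empty, ← PrimeSpectrum.zeroLocus_sup, h,
    PrimeSpectrum.zeroLocus_empty_iff_eq_top]

/-- Joint injectivity of the push-forwards from finitely many disjoint copies of `Spec R[x]` into
the cubic hypersurface. -/
theorem joint (T : ChowTheory k) {n : ℕ} (E : List (Eqn (Fin n))) {R : Type}
    [CommRing R] [Algebra k R] [Algebra.FiniteType k R] {ι : Type} [Fintype ι]
    (π : ι → (PE k E →ₐ[k] R)) (hπ : ∀ i, Function.Surjective (π i))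
    (he : ∀ i, ∃ e, IsIdempotentElem e ∧ RingHom.ker (π i) = Ideal.span {e})
    (hd : ∀ i j, i ≠ j → RingHom.ker (π i) ⊔ RingHom.ker (π j) = ⊤) :
    ∃ θ : ι → (HR k E →ₐ[k] MvPolynomial (Fin E.length) R),
      (∀ i, Function.Surjective (θ i)) ∧
      ∀ a : ι → T.A (aff k (MvPolynomial (Fin E.length) R)),
        ∑ i, T.push (affMap (θ i)) (a i) = 0 → ∀ i, a i = 0 := by
  classical
  set m := E.length with hm
  set f : Fin m → MvPolynomial (Fin n) k := fun i => (E.get i).poly k with hf
  have hPEp : Algebra.FiniteType k (MvPolynomial (Fin m) (PE k E)) := QR.rho_finiteType f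
  have hQ : Algebra.FiniteType k (QR (MvPolynomial (Fin n) k) f) := QR.finiteType f
  obtain ⟨φ⟩ : Nonempty (HR k E ≃ₐ[k] QR (MvPolynomial (Fin n) k) f) := exists_equiv_QR k E
  -- the composite maps
  let θ : ι → (HR k E →ₐ[k] MvPolynomial (Fin m) R) :=
    fun i => ((polyMap (π i) m).comp (QR.rho k f)).comp φ.toAlgHom
  have hsP : ∀ i, Function.Surjective (polyMap (π i) m) :=
    fun i => polyMap_surjective (π i) (hπ i) m
  have hφ : Function.Surjective φ.toAlgHom := φ.surjective
  have hρ : Function.Surjective (QR.rho k f) := QR.rhoB_surjective f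
  have hPρ : ∀ i, Function.Surjective ((polyMap (π i) m).comp (QR.rho k f)) :=
    fun i => (hsP i).comp hρ
  refine ⟨θ, fun i => (hPρ i).comp hφ, ?_⟩
  -- the three push-forwards
  have h1 : ∀ a : ι → T.A (aff k (MvPolynomial (Fin m) R)),
      ∑ i, T.push (affMap (polyMap (π i) m)) (a i) = 0 → ∀ i, a i = 0 := by
    refine T.push_clopen (fun i => affMap (polyMap (π i) m)) ⟨fun _ => FT.aff _, FT.aff _,
      fun i => isClosedImmersion_affMap _ (hsP i), fun i => ?_, fun i j hij => ?_⟩
    · obtain ⟨e, he1, he2⟩ := he i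
      refine isOpenImmersion_affMap (polyMap (π i) m) (hsP i) (C e) (he1.map C) ?_
      rw [polyMap_ker, he2, Ideal.map_span, Set.image_singleton]
    · rw [range_affMap _ (hsP i), range_affMap _ (hsP j)]
      refine disjoint_zeroLocus _ _ ?_
      rw [polyMap_ker, polyMap_ker, ← Ideal.map_sup, hd i j hij, Ideal.map_top]
  have h2 : Function.Injective (T.push (affMap (QR.rho k f))) :=
    push_affMap_injective T (QR.base k f) (QR.rho k f) (QR.rhoB_surjective f)
      (Flat.SpecMap_iff.mp (QR.flat_str f)) (QR.opn f) (QR.opn_eq f) (QR.affineFibres f)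
  have h3 : Function.Injective (T.push (affMap φ.toAlgHom)) := by
    rw [injective_iff_map_eq_zero]
    intro a ha
    refine T.push_clopen (ι := Unit) (fun _ => affMap φ.toAlgHom) ⟨fun _ => FT.aff _, FT.aff _,
      fun _ => isClosedImmersion_affMap _ hφ,
      fun _ => isOpenImmersion_affMap φ.toAlgHom hφ 0 IsIdempotentElem.zero ?_,
      fun i j hij => absurd (Subsingleton.elim i j) hij⟩ (fun _ => a) (by simpa using ha) ()
    rw [Ideal.span_singleton_eq_bot.mpr rfl]
    exact (RingHom.injective_iff_ker_eq_bot _).mp φ.injective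
  have h4 : ∀ i a, T.push (affMap (θ i)) a
      = T.push (affMap φ.toAlgHom) (T.push (affMap (QR.rho k f))
        (T.push (affMap (polyMap (π i) m)) a)) := by
    intro i a
    show T.push (affMap (((polyMap (π i) m).comp (QR.rho k f)).comp φ.toAlgHom)) a = _
    rw [affMap_comp, T.push_comp (affMap ((polyMap (π i) m).comp (QR.rho k f)))
      (affMap φ.toAlgHom) (FT.aff _) (FT.aff _) (FT.aff _)
      (isClosedImmersion_affMap _ (hPρ i))
      (isClosedImmersion_affMap _ hφ), affMap_comp,
      T.push_comp (affMap (polyMap (π i) m)) (affMap (QR.rho k f)) (FT.aff _) (FT.aff _)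
      (FT.aff _) (isClosedImmersion_affMap _ (hsP i))
      (isClosedImmersion_affMap _ hρ)]
  intro a ha
  apply h1
  apply h2
  apply h3
  rw [map_sum, map_sum, map_zero, map_zero, ← ha]
  exact Finset.sum_congr rfl fun i _ => (h4 i (a i)).symm

/-- Pull-back as a map of the subspaces `K`. -/
noncomputable def Stable.pullK {T : ChowTheory k} (K : Stable T) {X Y : Over (Spec (.of k))}
    (f : X ⟶ Y) (hX : Sm X) (hY : Sm Y) (hf : Flat f.left) : K.K Y →ₗ[ℚ] K.K X :=
  (T.pull f).restrict fun a ha => K.pull_mem f hX hY hf a ha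

/-- Push-forward as a map of the subspaces `K`. -/
noncomputable def Stable.pushK {T : ChowTheory k} (K : Stable T) {X Y : Over (Spec (.of k))}
    (f : X ⟶ Y) (hX : Sm X) (hY : Sm Y) (hf : IsClosedImmersion f.left) : K.K X →ₗ[ℚ] K.K Y :=
  (T.push f).restrict fun a ha => K.push_mem f hX hY hf a ha

/-- Copies of the kernel of `Spec R` embed into the kernel of the hypersurface. -/
theorem exists_embedding_aff (T : ChowTheory k) (K : Stable T) {n : ℕ} (E : List (Eqn (Fin n)))
    {R : Type} [CommRing R] [Algebra k R] [Algebra.Smooth k R] {ι : Type} [Fintype ι]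
    (π : ι → (PE k E →ₐ[k] R)) (hπ : ∀ i, Function.Surjective (π i))
    (he : ∀ i, ∃ e, IsIdempotentElem e ∧ RingHom.ker (π i) = Ideal.span {e})
    (hd : ∀ i j, i ≠ j → RingHom.ker (π i) ⊔ RingHom.ker (π j) = ⊤) :
    ∃ Φ : (ι → K.K (aff k R)) →ₗ[ℚ] K.K (hyp k (cubic ℤ E)), Function.Injective Φ := by
  classical
  rw [hyp_eq]
  obtain ⟨θ, hθ, hinj⟩ := joint T E π hπ he hd
  have s1 : Algebra.Smooth k (MvPolynomial (Fin E.length) R) := smooth_poly _
  have s2 := smooth_HR k E
  have hp := affineFibres_proj (k := k) R E.length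
  let P : K.K (aff k R) →ₗ[ℚ] K.K (aff k (MvPolynomial (Fin E.length) R)) :=
    K.pullK (projAff k R E.length) (Sm.aff _) (Sm.aff _) hp.1
  let Q : ι → K.K (aff k (MvPolynomial (Fin E.length) R)) →ₗ[ℚ] K.K (aff k (HR k E)) :=
    fun i => K.pushK (affMap (θ i)) (Sm.aff _) (Sm.aff _) (isClosedImmersion_affMap _ (hθ i))
  refine ⟨∑ i, (Q i).comp (P.comp (LinearMap.proj i)), ?_⟩
  rw [injective_iff_map_eq_zero]
  intro a ha
  have h1 : ∑ i, T.push (affMap (θ i)) (T.pull (projAff k R E.length) (a i)) = 0 := by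
    have h2 := congrArg (K.K (aff k (HR k E))).subtype ha
    rw [map_zero, LinearMap.sum_apply, map_sum] at h2
    exact h2
  funext i
  have h3 := hinj (fun i => T.pull (projAff k R E.length) (a i)) h1 i
  have h4 := (injective_iff_map_eq_zero _).mp
    (T.pull_inj (projAff k R E.length) (FT.aff _) (FT.aff _) hp) _ h3
  exact Subtype.ext h4

end Pool.Agent.H17.CU
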