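import Pool.Agent.H17.CU.Eqn

/-!
# The algebra presented by a system of elementary equations (helper17)
-/

namespace Pool.Agent.H17.CU

open MvPolynomial

variable {σ τ : Type} (k : Type) [CommRing k]

/-- The algebra presented by a list of elementary equations. -/
abbrev PE (E : List (Eqn σ)) : Type :=
  MvPolynomial σ k ⧸ Ideal.span (Set.range fun i : Fin E.length => (E.get i).poly k)

namespace PE

variable (E : List (Eqn σ))

/-- The generators. -/
noncomputable def gen (i : σ) : PE k E := Ideal.Quotient.mk _ (X i)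

variable {k} in
/-- The algebra homomorphism given by a solution. -/
noncomputable def lift {D : Type} [CommRing D] [Algebra k D] (z : σ → D) (hz : Sol E z) :
    PE k E →ₐ[k] D :=
  Ideal.Quotient.liftₐ _ (aeval z) (by
    intro a ha
    have hle : Ideal.span (Set.range fun i : Fin E.length => (E.get i).poly k)
        ≤ RingHom.ker (aeval z : MvPolynomial σ k →ₐ[k] D) := by
      rw [Ideal.span_le]
      rintro _ ⟨i, rfl⟩
      exact (Eqn.holds_iff z _).mp (hz _ (List.get_mem E i))
    exact hle ha)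

variable {k} in
@[simp]
theorem lift_gen {D : Type} [CommRing D] [Algebra k D] (z : σ → D) (hz : Sol E z) (i : σ) :
    lift E z hz (gen k E i) = z i := by
  simp [lift, gen]

theorem sol_gen : Sol E (gen k E) := by
  intro e he
  obtain ⟨i, rfl⟩ := List.get_of_mem he
  rw [Eqn.holds_iff (k := k)]
  have h : aeval (gen k E) = (Ideal.Quotient.mkₐ k (Ideal.span (Set.range
      fun i : Fin E.length => (E.get i).poly k))) := by
    apply MvPolynomial.algHom_ext
    intro j
    simp [gen]
  rw [h]
  exact Ideal.Quotient.eq_zero_iff_mem.mpr (Ideal.subset_span ⟨i, rfl⟩)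

variable {k} in
theorem hom_ext {D : Type} [CommRing D] [Algebra k D] {φ ψ : PE k E →ₐ[k] D}
    (h : ∀ i, φ (gen k E i) = ψ (gen k E i)) : φ = ψ :=
  Ideal.Quotient.algHom_ext _ (MvPolynomial.algHom_ext h)

end PE

/-- The algebra presented by integral polynomials. -/
abbrev PS (S : List (MvPolynomial τ ℤ)) : Type :=
  MvPolynomial τ k ⧸ Ideal.span {q | ∃ p ∈ S, q = MvPolynomial.map (Int.castRingHom k) p}

namespace PS

variable (S : List (MvPolynomial τ ℤ))

/-- The generators. -/
noncomputable def gen (i : τ) : PS k S := Ideal.Quotient.mk _ (X i)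

variable {k} in
theorem aeval_map {D : Type} [CommRing D] [Algebra k D] (t : τ → D) (p : MvPolynomial τ ℤ) :
    aeval t (MvPolynomial.map (Int.castRingHom k) p) = aeval t p := by
  rw [aeval_def, aeval_def, eval₂_map]
  congr 1
  ext x
  simp

variable {k} in
/-- The algebra homomorphism given by a solution. -/
noncomputable def lift {D : Type} [CommRing D] [Algebra k D] (t : τ → D)
    (ht : ∀ p ∈ S, aeval t p = 0) : PS k S →ₐ[k] D :=
  Ideal.Quotient.liftₐ _ (aeval t) (by
    intro a ha
    have hle : Ideal.span {q | ∃ p ∈ S, q = MvPolynomial.map (Int.castRingHom k) p}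
        ≤ RingHom.ker (aeval t : MvPolynomial τ k →ₐ[k] D) := by
      rw [Ideal.span_le]
      rintro _ ⟨p, hp, rfl⟩
      rw [SetLike.mem_coe, RingHom.mem_ker, aeval_map]
      exact ht p hp
    exact hle ha)

variable {k} in
@[simp]
theorem lift_gen {D : Type} [CommRing D] [Algebra k D] (t : τ → D)
    (ht : ∀ p ∈ S, aeval t p = 0) (i : τ) :
    lift S t ht (gen k S i) = t i := by
  simp [lift, gen]

theorem sol_gen (p) (hp : p ∈ S) :
    @aeval ℤ (PS k S) τ _ _ (Ring.toIntAlgebra _) (gen k S) p = 0 := by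
  rw [← aeval_map (k := k) (D := PS k S) (gen k S) p]
  have h : aeval (gen k S) = (Ideal.Quotient.mkₐ k
      (Ideal.span {q | ∃ p ∈ S, q = MvPolynomial.map (Int.castRingHom k) p})) := by
    apply MvPolynomial.algHom_ext
    intro j
    simp [gen]
  rw [h]
  exact Ideal.Quotient.eq_zero_iff_mem.mpr (Ideal.subset_span ⟨p, hp, rfl⟩)

variable {k} in
theorem hom_ext {D : Type} [CommRing D] [Algebra k D] {φ ψ : PS k S →ₐ[k] D}
    (h : ∀ i, φ (gen k S i) = ψ (gen k S i)) : φ = ψ :=
  Ideal.Quotient.algHom_ext _ (MvPolynomial.algHom_ext h)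

end PS

theorem exists_equiv (S : List (MvPolynomial τ ℤ)) :
    ∃ (ρ : Type) (_ : Finite ρ) (E : List (Eqn (τ ⊕ ρ))), Nonempty (PE k E ≃ₐ[k] PS k S) := by
  obtain ⟨ρ, hρ, E, hE⟩ := exists_system S
  refine ⟨ρ, hρ, E, ?_⟩
  -- the solution over `PS`
  obtain ⟨w, hw⟩ := (hE (PS k S) (PS.gen k S)).1 (PS.sol_gen k S)
  let φ : PE k E →ₐ[k] PS k S := PE.lift E _ hw
  -- the solution over `PE`
  have hgen : Sum.elim (fun i => PE.gen k E (Sum.inl i)) (fun i => PE.gen k E (Sum.inr i))
      = PE.gen k E := by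
    funext x
    cases x <;> rfl
  have h2 : ∀ p ∈ S, aeval (fun i => PE.gen k E (Sum.inl i)) p = 0 :=
    (hE (PE k E) (fun i => PE.gen k E (Sum.inl i))).2.1 (fun i => PE.gen k E (Sum.inr i)) (by
      rw [hgen]; exact PE.sol_gen k E)
  let ψ : PS k S →ₐ[k] PE k E := PS.lift S _ h2
  have hφψ : φ.comp ψ = AlgHom.id k _ := by
    apply PS.hom_ext
    intro i
    simp [φ, ψ]
  have hψφ : ψ.comp φ = AlgHom.id k _ := by
    apply PE.hom_ext
    intro i
    rw [AlgHom.comp_apply, AlgHom.id_apply]
    cases i with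
    | inl i => simp [φ, ψ]
    | inr i =>
      have e1 : Sol E (Sum.elim (fun i => PE.gen k E (Sum.inl i)) (fun j => ψ (w j))) := by
        have := hw.hom ψ.toRingHom
        have e0 : (Sum.elim (fun i => PE.gen k E (Sum.inl i)) (fun j => ψ (w j)))
            = ψ.toRingHom ∘ Sum.elim (PS.gen k S) w := by
          funext x
          cases x with
          | inl x => exact (PS.lift_gen S _ h2 x).symm
          | inr x => rfl
        rw [e0]
        exact this
      have e2 : Sol E (Sum.elim (fun i => PE.gen k E (Sum.inl i))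
          (fun j => PE.gen k E (Sum.inr j))) := by
        rw [hgen]; exact PE.sol_gen k E
      have e3 := (hE (PE k E) _).2.2 _ _ e1 e2
      have e4 := congrFun e3 i
      have e5 : φ (PE.gen k E (Sum.inr i)) = w i := PE.lift_gen E _ hw (Sum.inr i)
      rw [e5]
      exact e4
  exact ⟨AlgEquiv.ofAlgHom φ ψ hφψ hψφ⟩

/-- Renaming of the variables. -/
theorem PE.equiv_map (f : σ ≃ τ) (E : List (Eqn σ)) :
    Nonempty (PE k (E.map (Eqn.map f.toEmbedding)) ≃ₐ[k] PE k E) := by
  have h1 : Sol (E.map (Eqn.map f.toEmbedding)) (fun j => PE.gen k E (f.symm j)) := by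
    rw [sol_map]
    have : (fun j => PE.gen k E (f.symm j)) ∘ f.toEmbedding = PE.gen k E := by
      funext i
      simp
    rw [this]
    exact PE.sol_gen k E
  have h2 : Sol E (fun i => PE.gen k (E.map (Eqn.map f.toEmbedding)) (f i)) := by
    have := PE.sol_gen k (E.map (Eqn.map f.toEmbedding))
    rw [sol_map] at this
    exact this
  refine ⟨AlgEquiv.ofAlgHom (PE.lift _ _ h1) (PE.lift _ _ h2) ?_ ?_⟩
  · apply PE.hom_ext
    intro i
    simp
  · apply PE.hom_ext
    intro i
    simp

/-- Every algebra presented by finitely many integral polynomials in finitely many variables is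
presented by a list of elementary equations in `Fin n`. -/
theorem exists_list [Finite τ] (S : List (MvPolynomial τ ℤ)) :
    ∃ (n : ℕ) (E : List (Eqn (Fin n))), Nonempty (PE k E ≃ₐ[k] PS k S) := by
  obtain ⟨ρ, hρ, E, ⟨e⟩⟩ := exists_equiv k S
  obtain ⟨n, ⟨f⟩⟩ := Finite.exists_equiv_fin (τ ⊕ ρ)
  obtain ⟨e'⟩ := PE.equiv_map k f E
  exact ⟨n, _, ⟨e'.trans e⟩⟩

end Pool.Agent.H17.CU
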