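import Pool.Agent.H17.CU.Theory

/-!
# The ring `B[x₁..x_m, s] / (s² - s + ∑ xᵢ fᵢ)` is smooth over `B` (helper17)
-/

namespace Pool.Agent.H17.CU

open MvPolynomial

/-- The polynomial `s² - s + ∑ xᵢ fᵢ`, where `s = X none` and `xᵢ = X (some i)`. -/
noncomputable def qpoly (B : Type) [CommRing B] {m : ℕ} (f : Fin m → B) :
    MvPolynomial (Option (Fin m)) B :=
  X none ^ 2 - X none + ∑ i, C (f i) * X (some i)

/-- The ring `B[x₁..x_m, s] / (s² - s + ∑ xᵢ fᵢ)`. -/
abbrev QR (B : Type) [CommRing B] {m : ℕ} (f : Fin m → B) : Type :=
  MvPolynomial (Option (Fin m)) B ⧸ Ideal.span {qpoly B f}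

namespace QR

variable {B : Type} [CommRing B] {m : ℕ} (f : Fin m → B)

/-- The variables in the quotient. -/
noncomputable def var (i : Option (Fin m)) : QR B f := Ideal.Quotient.mk _ (X i)

theorem rel : var f none ^ 2 - var f none + ∑ i, algebraMap B (QR B f) (f i) * var f (some i)
    = 0 := by
  have h : Ideal.Quotient.mk (Ideal.span {qpoly B f}) (qpoly B f) = 0 :=
    Ideal.Quotient.eq_zero_iff_mem.mpr (Ideal.mem_span_singleton_self _)
  rw [qpoly, map_add, map_sub, map_pow, map_sum] at h
  simp only [map_mul] at h
  exact h

/-- The universal property. -/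
noncomputable def lift {D : Type*} [CommRing D] [Algebra B D] (v : Option (Fin m) → D)
    (h : v none ^ 2 - v none + ∑ i, algebraMap B D (f i) * v (some i) = 0) : QR B f →ₐ[B] D :=
  Ideal.Quotient.liftₐ _ (aeval v) (by
    intro a ha
    have hle : Ideal.span {qpoly B f} ≤ RingHom.ker (aeval v : _ →ₐ[B] D) := by
      rw [Ideal.span_le, Set.singleton_subset_iff, SetLike.mem_coe, RingHom.mem_ker]
      simpa [qpoly] using h
    exact hle ha)

@[simp]
theorem lift_var {D : Type*} [CommRing D] [Algebra B D] (v : Option (Fin m) → D)
    (h : v none ^ 2 - v none + ∑ i, algebraMap B D (f i) * v (some i) = 0) (i) :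
    lift f v h (var f i) = v i := by
  simp [lift, var]

@[ext]
theorem hom_ext {D : Type*} [CommRing D] [Algebra B D] {φ ψ : QR B f →ₐ[B] D}
    (h : ∀ i, φ (var f i) = ψ (var f i)) : φ = ψ := by
  apply Ideal.Quotient.algHom_ext
  apply MvPolynomial.algHom_ext
  exact h

instance smooth : Algebra.Smooth B (QR B f) where
  formallySmooth := by
    apply Algebra.FormallySmooth.of_comp_surjective
    intro D _ _ I hI g
    -- lifts of the variables
    have hlift : ∀ i, ∃ d : D, Ideal.Quotient.mk I d = g (var f i) := fun i =>
      Ideal.Quotient.mk_surjective _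
    choose v hv using hlift
    set F : D := v none ^ 2 - v none + ∑ i, algebraMap B D (f i) * v (some i) with hF
    have hFI : F ∈ I := by
      rw [← Ideal.Quotient.eq_zero_iff_mem, hF, map_add, map_sub, map_pow, map_sum]
      simp only [map_mul, hv]
      have h := congrArg g (rel f)
      rw [map_add, map_sub, map_pow, map_sum, map_zero] at h
      simp only [map_mul, AlgHom.commutes] at h
      exact h
    have hF2 : F * F = 0 := by
      have : F * F ∈ I ^ 2 := by rw [pow_two]; exact Ideal.mul_mem_mul hFI hFI
      rw [hI] at this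
      exact this
    -- the corrected values
    let w : Option (Fin m) → D := fun i => match i with
      | none => v none - F * (2 * v none - 1)
      | some i => v (some i) - F * (4 * v (some i))
    have hw : w none ^ 2 - w none + ∑ i, algebraMap B D (f i) * w (some i) = 0 := by
      have e1 : ∑ i, algebraMap B D (f i) * w (some i)
          = (1 - 4 * F) * ∑ i, algebraMap B D (f i) * v (some i) := by
        rw [Finset.mul_sum]
        refine Finset.sum_congr rfl fun i _ => ?_
        simp only [w]; ring
      have e2 : ∑ i, algebraMap B D (f i) * v (some i) = F - v none ^ 2 + v none := by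
        rw [hF]; ring
      rw [e1, e2]
      simp only [w]
      linear_combination (4 * v none ^ 2 - 4 * v none - 3) * hF2
    refine ⟨lift f w hw, ?_⟩
    apply hom_ext
    intro i
    rw [AlgHom.comp_apply, lift_var]
    have hFz : Ideal.Quotient.mk I F = 0 := Ideal.Quotient.eq_zero_iff_mem.mpr hFI
    cases i with
    | none => simp [w, hFz, hv]
    | some i => simp [w, hFz, hv]
  finitePresentation := by
    refine Algebra.FinitePresentation.quotient ?_
    exact ⟨{qpoly B f}, by simp⟩

end QR

end Pool.Agent.H17.CU
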