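import Pool.Agent.H17.CU.Cubic

/-!
# The cubic hypersurfaces are rational varieties (helper17)
-/

namespace Pool.Agent.H17.CU

open MvPolynomial

namespace QR

variable {B : Type} [CommRing B] [IsDomain B] {m : ℕ} (f : Fin m → B) (i₀ : Fin m)

/-- The polynomials in the other variables. -/
noncomputable def chi : MvPolynomial (Fin m) B →ₐ[B] QR B f :=
  aeval fun j => if j = i₀ then var f none else var f (some j)

variable (h₀ : f i₀ ≠ 0)

include h₀ in
/-- The homomorphism to the field of rational functions. -/
theorem exists_psi : ∃ ψ : QR B f →ₐ[B] FractionRing (MvPolynomial (Fin m) B),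
    ∀ p, ψ (chi f i₀ p) = algebraMap _ _ p := by
  classical
  set K := FractionRing (MvPolynomial (Fin m) B) with hK
  let c : B → K := fun b => algebraMap B K b
  have hc : c (f i₀) ≠ 0 := by
    have hinj : Function.Injective (algebraMap B K) := by
      rw [IsScalarTower.algebraMap_eq B (MvPolynomial (Fin m) B) K]
      exact (IsFractionRing.injective (MvPolynomial (Fin m) B) K).comp (C_injective _ _)
    intro h
    exact h₀ (hinj (h.trans (map_zero _).symm))
  let x : Fin m → K := fun j => algebraMap (MvPolynomial (Fin m) B) K (X j)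
  let T : K := ∑ j ∈ Finset.univ.erase i₀, c (f j) * x j
  let v : Option (Fin m) → K := fun i => match i with
    | none => x i₀
    | some i => if i = i₀ then (c (f i₀))⁻¹ * (x i₀ - x i₀ ^ 2 - T) else x i
  have hv : v none ^ 2 - v none + ∑ i, algebraMap B K (f i) * v (some i) = 0 := by
    rw [← Finset.add_sum_erase _ _ (Finset.mem_univ i₀)]
    have e1 : ∑ j ∈ Finset.univ.erase i₀, algebraMap B K (f j) * v (some j) = T := by
      refine Finset.sum_congr rfl fun j hj => ?_
      simp only [v, if_neg (Finset.ne_of_mem_erase hj)]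
      rfl
    rw [e1]
    simp only [v, if_true]
    have e2 : algebraMap B K (f i₀) * ((c (f i₀))⁻¹ * (x i₀ - x i₀ ^ 2 - T))
        = x i₀ - x i₀ ^ 2 - T := by
      rw [← mul_assoc]
      show c (f i₀) * (c (f i₀))⁻¹ * _ = _
      rw [mul_inv_cancel₀ hc, one_mul]
    rw [e2]
    ring
  refine ⟨lift f v hv, fun p => ?_⟩
  have h : (lift f v hv).comp (chi f i₀) = IsScalarTower.toAlgHom B (MvPolynomial (Fin m) B) K := by
    apply MvPolynomial.algHom_ext
    intro j
    rw [AlgHom.comp_apply, chi, aeval_X]
    by_cases hj : j = i₀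
    · subst hj
      rw [if_pos rfl, lift_var]
      rfl
    · rw [if_neg hj, lift_var]
      simp only [v, if_neg hj]
      rfl
  exact congrArg (fun γ => γ p) h

omit [IsDomain B] in
/-- Every element becomes a polynomial in the other variables after multiplication by a power. -/
theorem exists_pow_mul (r : QR B f) :
    ∃ (N : ℕ) (p : MvPolynomial (Fin m) B), algebraMap B _ (f i₀) ^ N * r = chi f i₀ p := by
  classical
  obtain ⟨q, rfl⟩ := Ideal.Quotient.mk_surjective r
  induction q using MvPolynomial.induction_on with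
  | C b => exact ⟨0, C b, by rw [pow_zero, one_mul]; exact ((chi f i₀).commutes b).symm⟩
  | add p q hp hq =>
    obtain ⟨N, p', hp'⟩ := hp
    obtain ⟨M, q', hq'⟩ := hq
    refine ⟨N + M, C (f i₀) ^ M * p' + C (f i₀) ^ N * q', ?_⟩
    have hC : chi f i₀ (C (f i₀)) = algebraMap B _ (f i₀) := (chi f i₀).commutes _
    rw [map_add, map_add, map_mul, map_mul, map_pow, map_pow, hC, ← hp', ← hq']
    ring
  | mul_X p i hp =>
    obtain ⟨N, p', hp'⟩ := hp
    have hi : ∃ (M : ℕ) (q : MvPolynomial (Fin m) B),
        algebraMap B _ (f i₀) ^ M * var f i = chi f i₀ q := by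
      match i with
      | none => exact ⟨0, X i₀, by simp [chi]⟩
      | some j =>
        by_cases hj : j = i₀
        · subst hj
          refine ⟨1, X j - X j ^ 2 - ∑ l ∈ Finset.univ.erase j, C (f l) * X l, ?_⟩
          have hr := rel f
          rw [← Finset.add_sum_erase _ _ (Finset.mem_univ j)] at hr
          have e1 : chi f j (X j) = var f none := by simp [chi]
          have e2 : chi f j (∑ l ∈ Finset.univ.erase j, C (f l) * X l)
              = ∑ l ∈ Finset.univ.erase j, algebraMap B _ (f l) * var f (some l) := by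
            rw [map_sum]
            refine Finset.sum_congr rfl fun l hl => ?_
            rw [map_mul]
            congr 1
            · exact (chi f j).commutes _
            · simp [chi, Finset.ne_of_mem_erase hl]
          rw [map_sub, map_sub, map_pow, e1, e2, pow_one]
          linear_combination hr
        · exact ⟨0, X j, by simp [chi, hj]⟩
    obtain ⟨M, q', hq'⟩ := hi
    refine ⟨N + M, p' * q', ?_⟩
    rw [map_mul, map_mul, ← hp', ← hq']
    show _ * (_ * var f i) = _
    ring

include h₀ in
theorem psi_injective (ψ : QR B f →ₐ[B] FractionRing (MvPolynomial (Fin m) B))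
    (hψ : ∀ p, ψ (chi f i₀ p) = algebraMap _ _ p) : Function.Injective ψ := by
  rw [injective_iff_map_eq_zero]
  intro r hr
  obtain ⟨N, p, hp⟩ := exists_pow_mul f i₀ r
  have h1 : algebraMap (MvPolynomial (Fin m) B) (FractionRing (MvPolynomial (Fin m) B)) p = 0 := by
    rw [← hψ, ← hp, map_mul, hr, mul_zero]
  have h2 : p = 0 := by
    rw [← map_zero (algebraMap (MvPolynomial (Fin m) B) _)] at h1
    exact IsFractionRing.injective _ _ h1
  rw [h2, map_zero] at hp
  -- `f i₀` is a non-zero-divisor by flatness
  have hreg : IsSMulRegular (QR B f) (algebraMap B (QR B f) (f i₀)) :=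
    (IsSMulRegular.of_right_eq_zero_of_smul (fun b hb => by
      rcases smul_eq_zero.mp hb with h | h
      · exact absurd h h₀
      · exact h) : IsSMulRegular B (f i₀)).of_flat
  have hreg2 : IsSMulRegular (QR B f) ((algebraMap B (QR B f) (f i₀)) ^ N) := hreg.pow N
  apply hreg2.right_eq_zero_of_smul
  exact hp

include h₀ in
/-- `QR B f` is a domain with fraction field the field of rational functions. -/
theorem isDomain_and_equiv (k : Type) [Field k] [Algebra k B] : IsDomain (QR B f) ∧
    Nonempty (FractionRing (QR B f) ≃ₐ[k] FractionRing (MvPolynomial (Fin m) B)) := by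
  obtain ⟨ψ, hψ⟩ := exists_psi f i₀ h₀
  have hinj := psi_injective f i₀ h₀ ψ hψ
  have hdom : IsDomain (QR B f) := hinj.isDomain ψ.toRingHom
  refine ⟨hdom, ?_⟩
  let : Algebra (QR B f) (FractionRing (MvPolynomial (Fin m) B)) := ψ.toRingHom.toAlgebra
  have hsc : IsScalarTower k (QR B f) (FractionRing (MvPolynomial (Fin m) B)) := by
    refine IsScalarTower.of_algebraMap_eq (R := k) (S := QR B f)
      (A := FractionRing (MvPolynomial (Fin m) B)) fun c => ?_
    show _ = ψ (algebraMap k (QR B f) c)
    rw [IsScalarTower.algebraMap_apply k B (QR B f), ψ.commutes,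
      ← IsScalarTower.algebraMap_apply k B (FractionRing (MvPolynomial (Fin m) B))]
  have hfr : IsFractionRing (QR B f) (FractionRing (MvPolynomial (Fin m) B)) := by
    have : FaithfulSMul (QR B f) (FractionRing (MvPolynomial (Fin m) B)) :=
      (faithfulSMul_iff_algebraMap_injective (QR B f)
        (FractionRing (MvPolynomial (Fin m) B))).mpr hinj
    refine IsFractionRing.of_field _ _ fun z => ?_
    obtain ⟨p, q, _, hpq⟩ := IsFractionRing.div_surjective (A := MvPolynomial (Fin m) B) z
    refine ⟨chi f i₀ p, chi f i₀ q, ?_⟩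
    show z = ψ (chi f i₀ p) / ψ (chi f i₀ q)
    rw [hψ, hψ, hpq]
  exact ⟨(FractionRing.algEquiv (QR B f) (FractionRing (MvPolynomial (Fin m) B))).restrictScalars k⟩

end QR

theorem poly_ne_zero {σ : Type} (k : Type) [Field k] (e : Eqn σ) : e.poly k ≠ 0 := by
  classical
  intro h
  cases e with
  | mul a b c =>
    have h1 := congrArg (coeff (Finsupp.single c 1)) h
    have h2 : (X a * X b : MvPolynomial σ k) = monomial (Finsupp.single a 1 + Finsupp.single b 1) 1
        := by simp [X, monomial_mul]
    have h3 : Finsupp.single a 1 + Finsupp.single b 1 ≠ (Finsupp.single c 1 : σ →₀ ℕ) := by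
      intro h4
      have := congrArg Finsupp.degree h4
      simp at this
    rw [Eqn.poly, coeff_sub, h2, coeff_monomial, if_neg h3, coeff_X, if_pos rfl, coeff_zero] at h1
    simp at h1
  | add a b c hab =>
    by_cases hc : c = a
    · subst hc
      have h1 := congrArg (coeff (Finsupp.single b 1)) h
      rw [Eqn.poly, add_sub_cancel_left, coeff_X, if_pos rfl, coeff_zero] at h1
      exact one_ne_zero h1
    · have h1 := congrArg (coeff (Finsupp.single a 1)) h
      have h2 : Finsupp.single b 1 ≠ (Finsupp.single a 1 : σ →₀ ℕ) := fun h4 =>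
        hab (Finsupp.single_left_injective one_ne_zero h4).symm
      have h3 : Finsupp.single c 1 ≠ (Finsupp.single a 1 : σ →₀ ℕ) := fun h4 =>
        hc (Finsupp.single_left_injective one_ne_zero h4)
      rw [Eqn.poly, coeff_sub, coeff_add, coeff_X, coeff_X, coeff_X, if_pos rfl, if_neg h2,
        if_neg h3, coeff_zero] at h1
      simp at h1
  | one a =>
    have h1 := congrArg (coeff 0) h
    have h2 : Finsupp.single a 1 ≠ (0 : σ →₀ ℕ) := by simp
    rw [Eqn.poly, coeff_sub, coeff_X, if_neg h2, coeff_one, if_pos rfl, coeff_zero] at h1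
    simp at h1

/-- The coefficients of the monomials divisible by `xᵢ`. -/
theorem coeff_cubic_main {n : ℕ} (E : List (Eqn (Fin n))) (i : Fin E.length) (u : Fin n →₀ ℕ) :
    (cubic ℤ E).coeff (u.mapDomain Sum.inr + Finsupp.single (Sum.inl (some i)) 1)
      = ((E.get i).poly ℤ).coeff u := by
  classical
  set μ := u.mapDomain Sum.inr + Finsupp.single (Sum.inl (some i)) 1 with hμ
  have hval : ∀ j, u.mapDomain Sum.inr (Sum.inl j : Option (Fin E.length) ⊕ Fin n) = 0 :=
    fun j => Finsupp.mapDomain_of_notMem_range _ _ (by simp)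
  have hnone : μ (Sum.inl none) = 0 := by
    rw [hμ, Finsupp.add_apply, hval, Finsupp.single_apply, if_neg (by simp), add_zero]
  have hother : ∀ j, j ≠ i → μ (Sum.inl (some j)) = 0 := by
    intro j hj
    rw [hμ, Finsupp.add_apply, hval, Finsupp.single_apply, if_neg (by simp [hj.symm]), add_zero]
  have hs : Sum.inl (some i) ∈ μ.support := by
    rw [Finsupp.mem_support_iff, hμ, Finsupp.add_apply, hval, Finsupp.single_eq_same]
    norm_num
  have h2 : Finsupp.single (Sum.inl none) 2 ≠ μ := by
    intro h; rw [← h] at hnone; simp at hnone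
  have h1 : Finsupp.single (Sum.inl none) 1 ≠ μ := by
    intro h; rw [← h] at hnone; simp at hnone
  have h3 : ∑ i, (X (Sum.inl (some i)) * rename Sum.inr ((E.get i).poly ℤ)).coeff μ
      = (X (Sum.inl (some i)) * rename Sum.inr ((E.get i).poly ℤ)).coeff μ := by
    refine Finset.sum_eq_single i (fun j _ hj => ?_) (fun h => absurd (Finset.mem_univ _) h)
    rw [coeff_X_mul', if_neg]
    rw [Finsupp.mem_support_iff, not_not]
    exact hother j hj
  have h4 : (X (Sum.inl (some i)) * rename Sum.inr ((E.get i).poly ℤ)).coeff μ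
      = ((E.get i).poly ℤ).coeff u := by
    rw [coeff_X_mul', if_pos hs, hμ, add_tsub_cancel_right]
    exact coeff_rename_mapDomain _ Sum.inr_injective _ _
  rw [cubic, coeff_add, coeff_sub, coeff_X_pow, coeff_X, coeff_sum, if_neg h2, if_neg h1, h3, h4]
  ring

/-- The polynomial has degree exactly three if one of the equations is a product equation. -/
theorem totalDegree_cubic_eq {n : ℕ} (E : List (Eqn (Fin n)))
    (hE : ∃ a b c, Eqn.mul a b c ∈ E) : (cubic ℤ E).totalDegree = 3 := by
  classical
  refine le_antisymm (totalDegree_cubic E) ?_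
  obtain ⟨a, b, c, hm⟩ := hE
  obtain ⟨i, hi⟩ := List.get_of_mem hm
  have h1 := coeff_cubic_main E i (Finsupp.single a 1 + Finsupp.single b 1)
  have h2 : (X a * X b : MvPolynomial (Fin n) ℤ)
      = monomial (Finsupp.single a 1 + Finsupp.single b 1) 1 := by simp [X, monomial_mul]
  have h3 : Finsupp.single c 1 ≠ (Finsupp.single a 1 + Finsupp.single b 1 : Fin n →₀ ℕ) := by
    intro h4
    have := congrArg Finsupp.degree h4
    simp at this
  rw [hi, Eqn.poly, coeff_sub, h2, coeff_monomial, if_pos rfl, coeff_X, if_neg h3, sub_zero] at h1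
  have h4 := le_totalDegree (mem_support_iff.mpr (by rw [h1]; exact one_ne_zero) :
    _ ∈ (cubic ℤ E).support)
  refine le_trans (le_of_eq ?_) h4
  rw [Finsupp.mapDomain_add, Finsupp.mapDomain_single, Finsupp.mapDomain_single]
  rw [Finsupp.sum_add_index' (by simp) (by simp), Finsupp.sum_add_index' (by simp) (by simp)]
  simp

theorem rational_HR {n : ℕ} (k : Type) [Field k] (E : List (Eqn (Fin n))) (hE : E ≠ []) :
    IsRationalVar k (MvPolynomial (Option (Fin E.length) ⊕ Fin n) k ⧸ Ideal.span {cubic k E}) := by
  obtain ⟨e⟩ := exists_equiv_QR k E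
  have hlen : 0 < E.length := List.length_pos_iff.mpr hE
  have hne : (E.get ⟨0, hlen⟩).poly k ≠ 0 := poly_ne_zero k _
  obtain ⟨hd, ⟨φ⟩⟩ := QR.isDomain_and_equiv (fun i : Fin E.length => (E.get i).poly k) ⟨0, hlen⟩
    hne k
  have hd' : IsDomain (MvPolynomial (Option (Fin E.length) ⊕ Fin n) k ⧸
      Ideal.span {cubic k E}) := e.injective.isDomain e.toRingEquiv.toRingHom
  refine ⟨hd', E.length + n, ?_⟩
  have e1 : FractionRing (MvPolynomial (Option (Fin E.length) ⊕ Fin n) k ⧸
      Ideal.span {cubic k E}) ≃ₐ[k] FractionRing (QR (MvPolynomial (Fin n) k)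
        fun i : Fin E.length => (E.get i).poly k) :=
    IsFractionRing.fieldEquivOfAlgEquiv k _ _ e
  have e2 : MvPolynomial (Fin E.length) (MvPolynomial (Fin n) k) ≃ₐ[k]
      MvPolynomial (Fin (E.length + n)) k :=
    (sumAlgEquiv k (Fin E.length) (Fin n)).symm.trans (renameEquiv k finSumFinEquiv)
  have e3 : FractionRing (MvPolynomial (Fin E.length) (MvPolynomial (Fin n) k)) ≃ₐ[k]
      FractionRing (MvPolynomial (Fin (E.length + n)) k) :=
    IsFractionRing.fieldEquivOfAlgEquiv k _ _ e2
  exact ⟨(e1.trans φ).trans e3⟩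

end Pool.Agent.H17.CU
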