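import Pool.Agent.H17.CU.Rho

/-!
# Injectivity of the push-forward for `V(f) × 𝔸ᵐ ⊂ Spec (QR B f)` (helper17)
-/

namespace Pool.Agent.H17.CU

open MvPolynomial CategoryTheory Limits AlgebraicGeometry TensorProduct

variable {k : Type} [Field k]

namespace QR

variable {B : Type} [CommRing B] [Algebra k B] {m : ℕ} (f : Fin m → B)

variable (k) in
/-- Restriction to the closed subscheme `V(f) × 𝔸ᵐ × {1}`, over `k`. -/
noncomputable def rho : QR B f →ₐ[k] MvPolynomial (Fin m) (B ⧸ Ideal.span (Set.range f)) :=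
  (rhoB f).restrictScalars k

variable (k) in
/-- The inclusion of the base. -/
noncomputable def base : B →ₐ[k] QR B f := IsScalarTower.toAlgHom k B (QR B f)

theorem finiteType [Algebra.FiniteType k B] : Algebra.FiniteType k (QR B f) :=
  Algebra.FiniteType.trans (S := B) inferInstance inferInstance

theorem rho_finiteType [Algebra.FiniteType k B] :
    Algebra.FiniteType k (MvPolynomial (Fin m) (B ⧸ Ideal.span (Set.range f))) :=
  (finiteType f).of_surjective (rho k f) (rhoB_surjective f)

theorem opn_eq : (opn f : Set (Spec (.of (QR B f))))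
    = (PrimeSpectrum.zeroLocus (RingHom.ker (rho k f) : Set (QR B f)))ᶜ := by
  have h : RingHom.ker (rho k f) = Ideal.span (locus f) := rhoB_ker f
  rw [h, PrimeSpectrum.zeroLocus_span]
  rfl

end QR

/-- Base change of `B → Q` along `B → B ⊗ D`. -/
theorem isPushout_tensor {B Q : Type} [CommRing B] [CommRing Q] [Algebra k B] [Algebra k Q]
    (b : B →ₐ[k] Q) (D : Type) [CommRing D] [Algebra k D] :
    IsPushout (CommRingCat.ofHom b.toRingHom)
      (CommRingCat.ofHom (Algebra.TensorProduct.includeLeftRingHom : B →+* B ⊗[k] D))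
      (CommRingCat.ofHom (Algebra.TensorProduct.includeLeftRingHom : Q →+* Q ⊗[k] D))
      (CommRingCat.ofHom (Algebra.TensorProduct.map b (AlgHom.id k D)).toRingHom) := by
  refine IsPushout.of_left (h₁₁ := CommRingCat.ofHom (algebraMap k B))
    (v₁₁ := CommRingCat.ofHom (algebraMap k D))
    (h₂₁ := CommRingCat.ofHom (S := B ⊗[k] D) Algebra.TensorProduct.includeRight.toRingHom)
    ?_ ?_ (CommRingCat.isPushout_tensorProduct k B D)
  · have h := CommRingCat.isPushout_tensorProduct k Q D
    have e1 : CommRingCat.ofHom (algebraMap k B) ≫ CommRingCat.ofHom b.toRingHom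
        = CommRingCat.ofHom (algebraMap k Q) := by
      rw [← CommRingCat.ofHom_comp]
      congr 1
      exact b.comp_algebraMap
    have e2 : CommRingCat.ofHom (S := B ⊗[k] D) Algebra.TensorProduct.includeRight.toRingHom ≫
        CommRingCat.ofHom (Algebra.TensorProduct.map b (AlgHom.id k D)).toRingHom
        = CommRingCat.ofHom (S := Q ⊗[k] D) Algebra.TensorProduct.includeRight.toRingHom := by
      ext d
      simp
    rw [e1, e2]
    exact h
  · ext x
    simp

/-- Injectivity of the push-forward, relative version. -/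
theorem push_affMap_injective_tensor (T : ChowTheory k) {B Q R' : Type} [CommRing B] [CommRing Q]
    [CommRing R'] [Algebra k B] [Algebra k Q] [Algebra k R'] [Algebra.FiniteType k B]
    [Algebra.FiniteType k Q] [Algebra.FiniteType k R'] (b : B →ₐ[k] Q) (ρ : Q →ₐ[k] R')
    (hρ : Function.Surjective ρ) (hb : b.toRingHom.Flat) (U : (Spec (.of Q)).Opens)
    (hU : (U : Set (Spec (.of Q))) = (PrimeSpectrum.zeroLocus (RingHom.ker ρ : Set Q))ᶜ)
    (hA : AffineFibres (U.ι ≫ Spec.map (CommRingCat.ofHom b.toRingHom)))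
    (D : Type) [CommRing D] [Algebra k D] [Algebra.FiniteType k D] :
    Function.Injective (T.push (affMap (Algebra.TensorProduct.map ρ (AlgHom.id k D)))) := by
  let q : Spec (.of (Q ⊗[k] D)) ⟶ Spec (.of Q) :=
    Spec.map (CommRingCat.ofHom (Algebra.TensorProduct.includeLeftRingHom))
  have sq := isPushout_tensor b D
  have s2 := isPullback_SpecMap_of_isPushout _ _ _ _ sq
  have hflat : (Algebra.TensorProduct.map b (AlgHom.id k D)).toRingHom.Flat := by
    have h1 : Flat (Spec.map (CommRingCat.ofHom b.toRingHom)) := Flat.SpecMap_iff.mpr hb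
    exact Flat.SpecMap_iff.mp (MorphismProperty.of_isPullback s2 h1)
  have hft : ∀ (B : Type) [CommRing B] [Algebra k B] [Algebra.FiniteType k B],
      Algebra.FiniteType k (B ⊗[k] D) := fun B _ _ _ =>
    Algebra.FiniteType.trans (S := B) inferInstance inferInstance
  have := hft B
  have := hft Q
  have := hft R'
  have hUD : AffineFibres ((q ⁻¹ᵁ U).ι ≫
      Spec.map (CommRingCat.ofHom (Algebra.TensorProduct.map b (AlgHom.id k D)).toRingHom)) := by
    have s1 : IsPullback (q ∣_ U) (q ⁻¹ᵁ U).ι U.ι q := isPullback_morphismRestrict q U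
    exact hA.baseChange (s1.paste_vert s2)
  refine push_affMap_injective T (Algebra.TensorProduct.map b (AlgHom.id k D))
    (Algebra.TensorProduct.map ρ (AlgHom.id k D)) ?_ hflat (q ⁻¹ᵁ U) ?_ hUD
  · exact Algebra.TensorProduct.map_surjective _ _ hρ Function.surjective_id
  · rw [Algebra.TensorProduct.rTensor_ker _ hρ]
    ext x
    have h1 : x ∈ q ⁻¹ᵁ U ↔ q x ∈ (U : Set (Spec (.of Q))) := Iff.rfl
    refine h1.trans ?_
    rw [hU]
    have h2 : ∀ x : PrimeSpectrum (Q ⊗[k] D),
        x.comap Algebra.TensorProduct.includeLeftRingHom ∈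
          PrimeSpectrum.zeroLocus (RingHom.ker ρ : Set Q) ↔
        x ∈ PrimeSpectrum.zeroLocus ((RingHom.ker ρ).map
          (Algebra.TensorProduct.includeLeft : Q →ₐ[k] Q ⊗[k] D) : Set (Q ⊗[k] D)) := by
      intro x
      rw [PrimeSpectrum.mem_zeroLocus, PrimeSpectrum.mem_zeroLocus, SetLike.coe_subset_coe,
        SetLike.coe_subset_coe]
      exact Ideal.map_le_iff_le_comap.symm
    exact not_congr (h2 x)

end Pool.Agent.H17.CU
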