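import Pool.Agent.H17.CU.Aff

/-!
# The closed subscheme `V(f) × 𝔸ᵐ` of `Spec (QR B f)` (helper17)
-/

namespace Pool.Agent.H17.CU

open MvPolynomial CategoryTheory Limits AlgebraicGeometry TensorProduct

namespace QR

variable {k : Type} [Field k] {B : Type} [CommRing B] [Algebra k B] {m : ℕ} (f : Fin m → B)

/-- Restriction to the closed subscheme `V(f) × 𝔸ᵐ × {1}`. -/
noncomputable def rhoB : QR B f →ₐ[B] MvPolynomial (Fin m) (B ⧸ Ideal.span (Set.range f)) :=
  lift f (fun i => match i with
    | none => 1
    | some i => X i) (by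
      have h : ∀ i, algebraMap B (MvPolynomial (Fin m) (B ⧸ Ideal.span (Set.range f))) (f i) = 0 :=
        fun i => by
          rw [IsScalarTower.algebraMap_apply B (B ⧸ Ideal.span (Set.range f)),
            Ideal.Quotient.algebraMap_eq, Ideal.Quotient.eq_zero_iff_mem.mpr, map_zero]
          exact Ideal.subset_span ⟨i, rfl⟩
      simp [h])

theorem rhoB_surjective : Function.Surjective (rhoB f) := by
  intro p
  have hmk : Function.Surjective (Ideal.Quotient.mk (Ideal.span (Set.range f))) :=
    Ideal.Quotient.mk_surjective
  obtain ⟨q, rfl⟩ := MvPolynomial.map_surjective _ hmk p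
  refine ⟨aeval (fun i => var f (some i)) q, ?_⟩
  have h : (rhoB f).comp (aeval (fun i => var f (some i)) : MvPolynomial (Fin m) B →ₐ[B] QR B f)
      = (MvPolynomial.mapAlgHom (Ideal.Quotient.mkₐ B (Ideal.span (Set.range f)))) := by
    apply MvPolynomial.algHom_ext
    intro i
    simp [rhoB]
  exact congrArg (fun γ => γ q) h

theorem rhoB_ker : RingHom.ker (rhoB f) = Ideal.span (locus f) := by
  apply le_antisymm
  · intro a ha
    rw [RingHom.mem_ker] at ha
    have hle : ∀ b ∈ Ideal.span (Set.range f),
        ((Ideal.Quotient.mk (Ideal.span (locus f))).comp (algebraMap B (QR B f))) b = 0 := by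
      intro b hb
      have hle' : Ideal.span (Set.range f) ≤ RingHom.ker
          ((Ideal.Quotient.mk (Ideal.span (locus f))).comp (algebraMap B (QR B f))) := by
        rw [Ideal.span_le]
        rintro _ ⟨i, rfl⟩
        rw [SetLike.mem_coe, RingHom.mem_ker, RingHom.comp_apply,
          Ideal.Quotient.eq_zero_iff_mem]
        exact Ideal.subset_span (Or.inr ⟨i, rfl⟩)
      exact hle' hb
    let back : MvPolynomial (Fin m) (B ⧸ Ideal.span (Set.range f)) →+*
        (QR B f ⧸ Ideal.span (locus f)) :=
      eval₂Hom (Ideal.Quotient.lift (Ideal.span (Set.range f)) _ hle)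
        (fun i => Ideal.Quotient.mk _ (var f (some i)))
    have hcomp : back.comp (rhoB f).toRingHom = Ideal.Quotient.mk (Ideal.span (locus f)) := by
      refine ringHom_ext f (D := QR B f ⧸ Ideal.span (locus f)) ?_ ?_
      · intro b
        have h1 : (rhoB f).toRingHom (algebraMap B _ b)
            = C (Ideal.Quotient.mk (Ideal.span (Set.range f)) b) := (rhoB f).commutes b
        rw [RingHom.comp_apply, h1]
        simp only [back, coe_eval₂Hom, eval₂_C, Ideal.Quotient.lift_mk, RingHom.comp_apply]
      · intro i
        rw [RingHom.comp_apply]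
        have h1 : (rhoB f).toRingHom (var f i) = (match i with
          | none => 1
          | some i => X i) := lift_var f _ _ i
        rw [h1]
        match i with
        | none =>
          rw [map_one, ← map_one (Ideal.Quotient.mk (Ideal.span (locus f))), eq_comm,
            Ideal.Quotient.eq]
          exact Ideal.subset_span (Or.inl rfl)
        | some i =>
          simp only [back, coe_eval₂Hom, eval₂_X]
    rw [← Ideal.Quotient.eq_zero_iff_mem, ← hcomp, RingHom.comp_apply]
    have h3 : (rhoB f).toRingHom a = 0 := ha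
    rw [h3, map_zero]
  · rw [Ideal.span_le]
    rintro _ (rfl | ⟨i, rfl⟩)
    · rw [SetLike.mem_coe, RingHom.mem_ker, map_sub, map_one, rhoB, lift_var, sub_self]
    · rw [SetLike.mem_coe, RingHom.mem_ker]
      simp only [AlgHom.commutes]
      rw [IsScalarTower.algebraMap_apply B (B ⧸ Ideal.span (Set.range f)),
            Ideal.Quotient.algebraMap_eq, Ideal.Quotient.eq_zero_iff_mem.mpr, map_zero]
      exact Ideal.subset_span ⟨i, rfl⟩

end QR

end Pool.Agent.H17.CU
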