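import Pool.Agent.H17.CU.Coef

/-!
# Adding `t` signs to a system of elementary equations (helper17)

`t` new variables `y_j` and one new variable `e`, with the `t + 1` new equations `e = 1`,
`y_j y_j = e`: the new algebra has `2 ^ t` quotients by idempotents isomorphic to the old one.
-/

namespace Pool.Agent.H17.CU

open MvPolynomial

/-- The extended system. -/
def signs {n : ℕ} (E : List (Eqn (Fin n))) (t : ℕ) : List (Eqn (Fin n ⊕ Option (Fin t))) :=
  E.map (Eqn.map ⟨Sum.inl, Sum.inl_injective⟩) ++ (Eqn.one (Sum.inr none) ::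
    (List.finRange t).map fun j =>
      Eqn.mul (Sum.inr (some j)) (Sum.inr (some j)) (Sum.inr none))

theorem length_signs {n : ℕ} (E : List (Eqn (Fin n))) (t : ℕ) :
    (signs E t).length = E.length + 1 + t := by
  simp [signs]
  ring

theorem sol_signs {n : ℕ} (E : List (Eqn (Fin n))) (t : ℕ) {D : Type} [CommRing D]
    (z : Fin n ⊕ Option (Fin t) → D) : Sol (signs E t) z ↔
      Sol E (z ∘ Sum.inl) ∧ z (Sum.inr none) = 1 ∧
        ∀ j, z (Sum.inr (some j)) * z (Sum.inr (some j)) = z (Sum.inr none) := by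
  rw [signs, sol_append, sol_map]
  refine and_congr Iff.rfl ?_
  simp only [Sol, List.mem_cons, List.mem_map, List.mem_finRange, true_and]
  constructor
  · intro h
    exact ⟨h _ (Or.inl rfl), fun j => h _ (Or.inr ⟨j, rfl⟩)⟩
  · rintro ⟨h1, h2⟩ e (rfl | ⟨j, rfl⟩)
    · exact h1
    · exact h2 j

/-- The sign `±1`. -/
def sg (k : Type) [Field k] (b : Bool) : k := if b then 1 else -1

theorem sg_sq (k : Type) [Field k] (b : Bool) : sg k b * sg k b = 1 := by
  cases b <;> simp [sg]

theorem exists_signs {k : Type} [Field k] [CharZero k] {n : ℕ} (E : List (Eqn (Fin n)))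
    {R : Type} [CommRing R] [Algebra k R] (π : PE k E →ₐ[k] R) (hπ : Function.Surjective π)
    (he : ∃ e, IsIdempotentElem e ∧ RingHom.ker π = Ideal.span {e}) (t : ℕ) :
    ∃ (N : ℕ) (E' : List (Eqn (Fin N))) (π' : (Fin t → Bool) → (PE k E' →ₐ[k] R)),
      E'.length = E.length + 1 + t ∧ (0 < t → ∃ a b c, Eqn.mul a b c ∈ E') ∧ (∀ ε, Function.Surjective (π' ε)) ∧
      (∀ ε, ∃ e, IsIdempotentElem e ∧ RingHom.ker (π' ε) = Ideal.span {e}) ∧
      ∀ ε ε', ε ≠ ε' → RingHom.ker (π' ε) ⊔ RingHom.ker (π' ε') = ⊤ := by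
  classical
  obtain ⟨N, ⟨f⟩⟩ := Finite.exists_equiv_fin (Fin n ⊕ Option (Fin t))
  obtain ⟨φ⟩ := PE.equiv_map k f (signs E t)
  set S := signs E t with hS
  -- the structure of `PE k S`
  have hgen := (sol_signs E t (PE.gen k S)).mp (PE.sol_gen k S)
  -- the inclusion of `PE k E`
  let ι : PE k E →ₐ[k] PE k S := PE.lift E (PE.gen k S ∘ Sum.inl) hgen.1
  have hι : ∀ i, ι (PE.gen k E i) = PE.gen k S (Sum.inl i) := fun i => PE.lift_gen E _ hgen.1 i
  -- the homomorphisms
  let z : (Fin t → Bool) → (Fin n ⊕ Option (Fin t) → R) := fun ε =>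
    Sum.elim (fun i => π (PE.gen k E i)) (fun o => match o with
      | none => 1
      | some j => algebraMap k R (sg k (ε j)))
  have hz : ∀ ε, Sol S (z ε) := by
    intro ε
    rw [hS, sol_signs]
    refine ⟨?_, rfl, fun j => ?_⟩
    · have h1 : z ε ∘ Sum.inl = π ∘ PE.gen k E := rfl
      rw [h1]
      exact (PE.sol_gen k E).hom π.toRingHom
    · show algebraMap k R (sg k (ε j)) * algebraMap k R (sg k (ε j)) = 1
      rw [← map_mul, sg_sq, map_one]
  let p : (Fin t → Bool) → (PE k S →ₐ[k] R) := fun ε => PE.lift S (z ε) (hz ε)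
  have hpz : ∀ ε i, p ε (PE.gen k S i) = z ε i := fun ε i => PE.lift_gen S _ (hz ε) i
  have hpι : ∀ ε, (p ε).comp ι = π := by
    intro ε
    apply PE.hom_ext
    intro i
    rw [AlgHom.comp_apply, hι, hpz]
    rfl
  have hps : ∀ ε, Function.Surjective (p ε) := by
    intro ε r
    obtain ⟨x, rfl⟩ := hπ r
    exact ⟨ι x, congrArg (fun γ => γ x) (hpι ε)⟩
  -- the kernels
  obtain ⟨e₀, he₀, hk₀⟩ := he
  let a : (Fin t → Bool) → Fin t → PE k S := fun ε j =>
    PE.gen k S (Sum.inr (some j)) - algebraMap k _ (sg k (ε j))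
  have ha0 : ∀ ε j, p ε (a ε j) = 0 := by
    intro ε j
    show p ε (PE.gen k S (Sum.inr (some j)) - algebraMap k _ (sg k (ε j))) = 0
    rw [map_sub, hpz, AlgHom.commutes]
    exact sub_self _
  have hker : ∀ ε, RingHom.ker (p ε) = Ideal.span (insert (ι e₀) (Set.range (a ε))) := by
    intro ε
    apply le_antisymm
    · intro x hx
      have hx0 : p ε x = 0 := hx
      set I := Ideal.span (insert (ι e₀) (Set.range (a ε))) with hI
      let mkI : PE k S →ₐ[k] (PE k S ⧸ I) := Ideal.Quotient.mkₐ k I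
      have h1 : ∀ y ∈ RingHom.ker π, mkI.comp ι y = 0 := by
        intro y hy
        rw [hk₀, Ideal.mem_span_singleton'] at hy
        obtain ⟨c, rfl⟩ := hy
        have h5 : ι (c * e₀) ∈ I := by
          rw [map_mul]
          exact I.mul_mem_left _ (Ideal.subset_span (Set.mem_insert _ _))
        exact Ideal.Quotient.eq_zero_iff_mem.mpr h5
      let r : R →ₐ[k] (PE k S ⧸ I) :=
        (Ideal.Quotient.liftₐ (RingHom.ker π) (mkI.comp ι) h1).comp
          (Ideal.quotientKerAlgEquivOfSurjective hπ).symm.toAlgHom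
      have hr : ∀ y, r (π y) = mkI (ι y) := by
        intro y
        have h1' : (Ideal.quotientKerAlgEquivOfSurjective hπ).symm (π y)
            = Ideal.Quotient.mk (RingHom.ker π) y := by
          rw [AlgEquiv.symm_apply_eq]
          rfl
        show (Ideal.Quotient.liftₐ (RingHom.ker π) (mkI.comp ι) h1)
          ((Ideal.quotientKerAlgEquivOfSurjective hπ).symm (π y)) = mkI (ι y)
        rw [h1']
        rfl
      have hcomp : r.comp (p ε) = mkI := by
        refine Ideal.Quotient.algHom_ext _ (MvPolynomial.algHom_ext ?_)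
        intro i
        show r (p ε (PE.gen k S i)) = mkI (PE.gen k S i)
        rw [hpz]
        match i with
        | Sum.inl i =>
          show r (π (PE.gen k E i)) = _
          rw [hr, hι]
        | Sum.inr none =>
          show r 1 = _
          rw [map_one, hgen.2.1, map_one]
        | Sum.inr (some j) =>
          show r (algebraMap k R (sg k (ε j))) = _
          rw [AlgHom.commutes]
          have h2 : mkI (a ε j) = 0 :=
            Ideal.Quotient.eq_zero_iff_mem.mpr (Ideal.subset_span (Set.mem_insert_of_mem _ ⟨j, rfl⟩))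
          have h3 : mkI (a ε j) = mkI (PE.gen k S (Sum.inr (some j)))
              - mkI (algebraMap k _ (sg k (ε j))) := map_sub _ _ _
          rw [h3, sub_eq_zero, AlgHom.commutes] at h2
          exact h2.symm
      have h3 : mkI x = 0 := by
        rw [← hcomp, AlgHom.comp_apply, hx0, map_zero]
      exact Ideal.Quotient.eq_zero_iff_mem.mp h3
    · rw [Ideal.span_le]
      rintro _ (rfl | ⟨j, rfl⟩)
      · have h1 : p ε (ι e₀) = π e₀ := congrArg (fun γ => γ e₀) (hpι ε)
        have h2 : π e₀ = 0 := by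
          have : e₀ ∈ RingHom.ker π := by rw [hk₀]; exact Ideal.mem_span_singleton_self _
          exact this
        show p ε (ι e₀) = 0
        rw [h1, h2]
      · exact ha0 ε j
  have hidem : ∀ ε, ∃ e, IsIdempotentElem e ∧ RingHom.ker (p ε) = Ideal.span {e} := by
    intro ε
    rw [hker]
    refine (Ideal.isIdempotentElem_iff_of_fg _ ?_).mp ?_
    · exact ⟨insert (ι e₀) (Finset.univ.image (a ε)), by simp⟩
    · show Ideal.span _ * Ideal.span _ = Ideal.span _
      refine le_antisymm Ideal.mul_le_left ?_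
      rw [Ideal.span_le]
      rintro _ (rfl | ⟨j, rfl⟩)
      · have h1 : ι e₀ = ι e₀ * ι e₀ := by rw [← map_mul, he₀.eq]
        have hm : ι e₀ * ι e₀ ∈ Ideal.span (insert (ι e₀) (Set.range (a ε))) *
            Ideal.span (insert (ι e₀) (Set.range (a ε))) :=
          Ideal.mul_mem_mul (Ideal.subset_span (Set.mem_insert _ _))
            (Ideal.subset_span (Set.mem_insert _ _))
        exact Eq.subst (motive := fun w => w ∈ Ideal.span (insert (ι e₀) (Set.range (a ε))) *
            Ideal.span (insert (ι e₀) (Set.range (a ε)))) h1.symm hm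
      · have hy : PE.gen k S (Sum.inr (some j)) * PE.gen k S (Sum.inr (some j)) = 1 := by
          rw [hgen.2.2 j, hgen.2.1]
        have hs : algebraMap k (PE k S) (sg k (ε j)) * algebraMap k (PE k S) (sg k (ε j)) = 1 := by
          rw [← map_mul, sg_sq, map_one]
        have h2 : algebraMap k (PE k S) (2⁻¹) * 2 = 1 := by
          have : (2 : PE k S) = algebraMap k (PE k S) 2 := (map_ofNat _ 2).symm
          rw [this, ← map_mul, inv_mul_cancel₀ two_ne_zero, map_one]
        have h1 : a ε j = (-(algebraMap k (PE k S) (2⁻¹)) * algebraMap k (PE k S) (sg k (ε j)))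
            * (a ε j * a ε j) := by
          show PE.gen k S (Sum.inr (some j)) - algebraMap k _ (sg k (ε j)) = _ *
            ((PE.gen k S (Sum.inr (some j)) - algebraMap k _ (sg k (ε j))) *
              (PE.gen k S (Sum.inr (some j)) - algebraMap k _ (sg k (ε j))))
          set y := PE.gen k S (Sum.inr (some j))
          set s := algebraMap k (PE k S) (sg k (ε j))
          set h := algebraMap k (PE k S) (2⁻¹)
          -- `(y - s)² = 2 - 2 s y`
          linear_combination (h * s) * hy + (-2 * h * y + h * s) * hs - (y - s) * h2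
        rw [SetLike.mem_coe, h1]
        exact Ideal.mul_mem_left _ _ (Ideal.mul_mem_mul
          (Ideal.subset_span (Set.mem_insert_of_mem _ ⟨j, rfl⟩))
          (Ideal.subset_span (Set.mem_insert_of_mem _ ⟨j, rfl⟩)))
  refine ⟨N, _, fun ε => (p ε).comp φ.toAlgHom, ?_, fun ht => ?_,
    fun ε => (hps ε).comp φ.surjective, ?_, ?_⟩
  · rw [List.length_map, hS, length_signs]
  · refine ⟨f (Sum.inr (some ⟨0, ht⟩)), f (Sum.inr (some ⟨0, ht⟩)), f (Sum.inr none), ?_⟩
    rw [List.mem_map]
    refine ⟨Eqn.mul (Sum.inr (some ⟨0, ht⟩)) (Sum.inr (some ⟨0, ht⟩)) (Sum.inr none), ?_, rfl⟩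
    rw [hS, signs]
    simp
  · intro ε
    obtain ⟨e, he1, he2⟩ := hidem ε
    refine ⟨φ.symm e, he1.map φ.symm, ?_⟩
    ext x
    rw [RingHom.mem_ker]
    have h1 : (p ε).comp φ.toAlgHom x = p ε (φ x) := rfl
    have h2 : p ε (φ x) = 0 ↔ φ x ∈ Ideal.span {e} := by
      rw [← he2, RingHom.mem_ker]
    rw [h1, h2, Ideal.mem_span_singleton', Ideal.mem_span_singleton']
    constructor
    · rintro ⟨a, ha⟩
      refine ⟨φ.symm a, ?_⟩
      rw [← map_mul, ha, AlgEquiv.symm_apply_apply]
    · rintro ⟨a, ha⟩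
      refine ⟨φ a, ?_⟩
      rw [← ha, map_mul, AlgEquiv.apply_symm_apply]
  · intro ε ε' hε
    obtain ⟨j, hj⟩ : ∃ j, ε j ≠ ε' j := by
      by_contra h
      push Not at h
      exact hε (funext h)
    rw [Ideal.eq_top_iff_one]
    have m1 : φ.symm (a ε j) ∈ RingHom.ker ((p ε).comp φ.toAlgHom) := by
      show p ε (φ (φ.symm (a ε j))) = 0
      rw [AlgEquiv.apply_symm_apply]
      exact ha0 ε j
    have m2 : φ.symm (a ε' j) ∈ RingHom.ker ((p ε').comp φ.toAlgHom) := by
      show p ε' (φ (φ.symm (a ε' j))) = 0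
      rw [AlgEquiv.apply_symm_apply]
      exact ha0 ε' j
    have hd : sg k (ε' j) - sg k (ε j) ≠ 0 := by
      rcases h1 : ε j with _ | _ <;> rcases h2 : ε' j with _ | _
      · exact absurd (h1.trans h2.symm) hj
      · simp only [sg, if_true]; norm_num
      · simp only [sg, if_true]; norm_num
      · exact absurd (h1.trans h2.symm) hj
    have h3 : (1 : PE k ((S.map (Eqn.map f.toEmbedding))))
        = algebraMap k _ (sg k (ε' j) - sg k (ε j))⁻¹ * φ.symm (a ε j)
          - algebraMap k _ (sg k (ε' j) - sg k (ε j))⁻¹ * φ.symm (a ε' j) := by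
      have e1 : a ε j - a ε' j = algebraMap k _ (sg k (ε' j) - sg k (ε j)) := by
        show (PE.gen k S (Sum.inr (some j)) - algebraMap k _ (sg k (ε j))) -
          (PE.gen k S (Sum.inr (some j)) - algebraMap k _ (sg k (ε' j))) = _
        rw [map_sub]
        ring
      rw [← mul_sub, ← map_sub, e1, AlgEquiv.commutes, ← map_mul, inv_mul_cancel₀ hd, map_one]
    rw [h3]
    exact Ideal.sub_mem _ (Ideal.mul_mem_left _ _ (Ideal.mem_sup_left m1))
      (Ideal.mul_mem_left _ _ (Ideal.mem_sup_right m2))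

end Pool.Agent.H17.CU
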