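import Pool.Agent.H17.CU.AffU

/-!
# Stability properties of morphisms whose fibres are affine spaces (helper17)
-/

namespace Pool.Agent.H17.CU

open MvPolynomial CategoryTheory Limits AlgebraicGeometry

theorem AffineFibres.baseChange {X Y X' Y' : Scheme.{0}} {p : X ⟶ Y} {g : X' ⟶ X} {p' : X' ⟶ Y'}
    {h : Y' ⟶ Y} (hp : AffineFibres p) (sq : IsPullback g p' p h) : AffineFibres p' := by
  obtain ⟨hf, hfib⟩ := hp
  refine ⟨MorphismProperty.of_isPullback sq hf, ?_⟩
  intro F _ y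
  obtain ⟨m, g0, sq0⟩ := hfib F (y ≫ h)
  have hw : g0 ≫ p = ((𝔸(Fin m; Spec (.of F)) ↘ Spec (.of F)) ≫ y) ≫ h := by
    rw [sq0.w, Category.assoc]
  refine ⟨m, sq.lift g0 ((𝔸(Fin m; Spec (.of F)) ↘ Spec (.of F)) ≫ y) hw, ?_⟩
  refine IsPullback.of_right ?_ ?_ sq
  · rw [sq.lift_fst]
    exact sq0
  · rw [sq.lift_snd]

theorem AffineFibres.iso_comp {X X' Y : Scheme.{0}} {p : X ⟶ Y} (hp : AffineFibres p)
    (e : X' ≅ X) : AffineFibres (e.hom ≫ p) :=
  hp.baseChange (g := e.hom) (p' := e.hom ≫ p) (h := 𝟙 Y) (IsPullback.of_horiz_isIso ⟨by simp⟩)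

theorem flat_affineSpace (m : ℕ) (S : Scheme.{0}) : Flat (𝔸(Fin m; S) ↘ S) :=
  MorphismProperty.pullback_fst _ _ <| by
  have := isIso_of_isTerminal specULiftZIsTerminal.{0} terminalIsTerminal (terminal.from _)
  rw [← terminal.comp_from (Spec.map (CommRingCat.ofHom C)),
    MorphismProperty.cancel_right_of_respectsIso (P := @Flat), Flat.SpecMap_iff]
  have : Module.Flat (ULift.{0} ℤ) (MvPolynomial (Fin m) (ULift.{0} ℤ)) := inferInstance
  exact RingHom.flat_algebraMap_iff.mpr this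

theorem affineFibres_affineSpace (m : ℕ) (S : Scheme.{0}) :
    AffineFibres (𝔸(Fin m; S) ↘ S) :=
  ⟨flat_affineSpace m S, fun _ _ y => ⟨m, AffineSpace.map _ y, AffineSpace.isPullback_map y⟩⟩

theorem affineFibres_poly (m : ℕ) (R : Type) [CommRing R] :
    AffineFibres (Spec.map (CommRingCat.ofHom (C : R →+* MvPolynomial (Fin m) R))) := by
  have h := (affineFibres_affineSpace m (Spec (.of R))).iso_comp
    (AffineSpace.SpecIso (Fin m) (.of R)).symm
  rwa [Iso.symm_hom, AffineSpace.SpecIso_inv_over] at h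

theorem affineFibres_of_isIso {X Y : Scheme.{0}} (e : X ≅ Y) : AffineFibres e.hom := by
  have h := (affineFibres_affineSpace 0 Y).iso_comp
    (e ≪≫ (asIso (𝔸(Fin 0; Y) ↘ Y)).symm)
  simpa using h

end Pool.Agent.H17.CU
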