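import Pool.Agent.H17.CU.Defs

/-!
# Injectivity of a push-forward in a Chow theory (helper17)
-/

namespace Pool.Agent.H17.CU

open AlgebraicGeometry CategoryTheory Limits

/-- Injectivity of the push-forward: `i : Z ⟶ X` closed with open complement `j : U ⟶ X`, and a
flat morphism `w : X ⟶ S` whose restriction to `U` has affine spaces as fibres. -/
theorem push_injective {k : Type} [Field k] (T : ChowTheory k) {Z X U S : Over (Spec (.of k))}
    (i : Z ⟶ X) (j : U ⟶ X) (w : X ⟶ S) (hZ : FT Z) (hX : FT X) (hU : FT U) (hS : FT S)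
    (hi : IsClosedImmersion i.left) (hj : IsOpenImmersion j.left)
    (hij : Set.range j.left = (Set.range i.left)ᶜ) (hw : Flat w.left)
    (hjw : AffineFibres (j ≫ w).left) : Function.Injective (T.push i) := by
  rw [injective_iff_map_eq_zero]
  intro z hz
  have hc : ClosedOpen i j := ⟨hZ, hX, hU, hi, hj, hij⟩
  obtain ⟨u, rfl⟩ := T.exact i j hc z hz
  obtain ⟨v, rfl⟩ := T.pull1_surj (j ≫ w) hU hS hjw u
  rw [T.pull1_comp j w hU hX hS inferInstance hw]
  exact T.bd_pull1 i j hc _

end Pool.Agent.H17.CU
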