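import Pool.Agent.H17.CU.Main
import Pool.Agent.H17.CU.Sign
import Pool.Agent.H17.CU.Rat

/-!
# Cubic universality (helper17)
-/

namespace Pool.Agent.H17.CU

open MvPolynomial CategoryTheory Limits AlgebraicGeometry

variable {k : Type} [Field k]

theorem HasMul.smallCubic {n : ℕ} {E : List (Eqn (Fin n))} (h : HasMul E) (k : Type) [Field k] :
    SmallCubic k (cubic ℤ E) where
  degree := totalDegree_cubic_eq E h
  coeff := coeff_cubic E
  smooth := sm_hyp k E
  rational := by
    rw [cubic_map]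
    refine rational_HR k E ?_
    rintro rfl
    obtain ⟨a, b, c, h⟩ := h
    simp at h

theorem jouanolou_aff (R : Type) [CommRing R] [Algebra k R] (h : Algebra.Smooth k R) :
    Jouanolou (aff k R) :=
  ⟨R, inferInstance, inferInstance, h, 𝟙 _, affineFibres_of_isIso (Iso.refl (aff k R).left)⟩

theorem smooth_of_sm (R : Type) [CommRing R] [Algebra k R] (h : Sm (aff k R)) :
    Algebra.Smooth k R := by
  have h2 : Smooth (Spec.map (CommRingCat.ofHom (algebraMap k R))) := h.2
  rw [HasRingHomProperty.Spec_iff (P := @Smooth)] at h2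
  exact RingHom.smooth_algebraMap.mp h2

/-- The kernel of a smooth variety with Jouanolou's property: `2 ^ t` copies of it embed into the
kernel of a cubic hypersurface with `C + t` equations. -/
theorem exists_embedding [CharZero k] [Algebra.IsAlgebraic ℚ k] (T : ChowTheory k) (K : Stable T)
    (X : Sch k) (hX : Sm X) (hJ : Jouanolou X) : ∃ C : ℕ, ∀ t : ℕ, K.Embeds X C t := by
  obtain ⟨R, _, _, _, p, hp⟩ := hJ
  have : Algebra.FiniteType k R := inferInstance
  obtain ⟨n, E, π, hπ, he⟩ := exists_presentation (k := k) R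
  refine ⟨E.length + 1, fun t => ?_⟩
  obtain ⟨N, E', π', hlen, hmul, hs, hi, hd⟩ := exists_signs E π hπ he t
  obtain ⟨Ψ, hΨ⟩ := exists_embedding_aff T K E' π' hs hi hd
  refine ⟨N, E', hlen, hmul, Ψ.comp ((K.pullK p (Sm.aff R) hX hp.1).compLeft (Fin t → Bool)), ?_⟩
  refine hΨ.comp ?_
  rw [injective_iff_map_eq_zero]
  intro a ha
  funext i
  have h1 : T.pull p (a i) = 0 := congrArg Subtype.val (congrFun ha i)
  exact Subtype.ext ((injective_iff_map_eq_zero _).mp (T.pull_inj p (FT.aff _) hX.1 hp) _ h1)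

theorem rank_of_embedding {M N : Type} [AddCommGroup M] [Module ℚ M] [AddCommGroup N] [Module ℚ N]
    (t : ℕ) (Φ : ((Fin t → Bool) → M) →ₗ[ℚ] N) (hΦ : Function.Injective Φ) (a : M) (ha : a ≠ 0) :
    (2 : Cardinal) ^ t ≤ Module.rank ℚ N := by
  classical
  have hv : LinearIndependent ℚ (fun i : Fin t → Bool => Φ (Pi.single i a)) := by
    refine LinearIndependent.map' (f := Φ) ?_ (LinearMap.ker_eq_bot.mpr hΦ)
    rw [Fintype.linearIndependent_iff]
    intro c hc i
    have h1 := congrFun hc i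
    rw [Finset.sum_apply] at h1
    simp only [Pi.smul_apply, Pi.single_apply, smul_ite, smul_zero, Finset.sum_ite_eq,
      Finset.mem_univ, if_true, Pi.zero_apply] at h1
    exact (smul_eq_zero.mp h1).resolve_right ha
  have h := hv.cardinal_le_rank
  refine le_of_eq_of_le ?_ h
  simp

/-- The four equivalent forms. -/
theorem universality [CharZero k] [Algebra.IsAlgebraic ℚ k] (T : ChowTheory k) (K : Stable T) :
    [K.VanishAll, K.VanishSmallCubic, K.VanishEqn, K.RankGap].TFAE := by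
  have haff : ∀ (R : Type) [CommRing R] [Algebra k R], Sm (aff k R) →
      (∀ X, Sm X → Jouanolou X → K.K X = ⊥) → K.K (aff k R) = ⊥ := by
    intro R _ _ hs h
    exact h _ hs (jouanolou_aff _ (smooth_of_sm _ hs))
  have hlarge : ∀ X, Sm X → Jouanolou X → K.K X ≠ ⊥ → ∃ C : ℕ, ∀ t : ℕ, ∃ (n : ℕ)
      (E : List (Eqn (Fin n))), E.length = C + t ∧ (0 < t → HasMul E) ∧
      (2 : Cardinal) ^ t ≤ Module.rank ℚ (K.K (WE k E)) := by
    intro X hX hJ hK
    obtain ⟨C, hC⟩ := exists_embedding T K X hX hJ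
    obtain ⟨a, ha⟩ : ∃ a : K.K X, a ≠ 0 := by
      obtain ⟨a, ha, ha0⟩ := (Submodule.ne_bot_iff _).mp hK
      exact ⟨⟨a, ha⟩, fun h => ha0 (congrArg Subtype.val h)⟩
    refine ⟨C, fun t => ?_⟩
    obtain ⟨n, E, hlen, hmul, Φ, hΦ⟩ := hC t
    exact ⟨n, E, hlen, hmul, rank_of_embedding t Φ hΦ a ha⟩
  tfae_have 1 → 2 := by
    intro h σ _ F hF
    exact haff _ hF.smooth h
  tfae_have 2 → 3 := by
    intro h n E hE
    exact h _ (cubic ℤ E) (hE.smallCubic k)
  tfae_have 3 → 1 := by
    intro h X hX hJ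
    by_contra hK
    obtain ⟨C, hC⟩ := hlarge X hX hJ hK
    obtain ⟨n, E, _, hmul, hr⟩ := hC 1
    rw [h n E (hmul one_pos), rank_bot, pow_one] at hr
    exact absurd hr (by simp)
  tfae_have 1 → 4 := by
    intro h C
    refine ⟨C, le_rfl, fun n E _ => ?_⟩
    have h0 : K.K (WE k E) = ⊥ := haff _ (sm_hyp k E) h
    rw [h0, rank_bot, Nat.sub_self, pow_zero]
    exact zero_lt_one
  tfae_have 4 → 1 := by
    intro h X hX hJ
    by_contra hK
    obtain ⟨C, hC⟩ := hlarge X hX hJ hK
    obtain ⟨l, hl, hr⟩ := h C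
    obtain ⟨n, E, hlen, _, hr'⟩ := hC (l - C)
    exact absurd hr' (not_le.mpr (hr n E (by omega)))
  tfae_finish

end Pool.Agent.H17.CU
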